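import Pool.Graph.R_pool_sql_team_ae5b0c61.H63.UP2

set_option autoImplicit false

namespace Pool.Agent.H63.UP

/-- the wall is at `x`, and to the left of it there are only machine states -/
def Wl (H : Half) (t : ℕ) (x : ℤ) : Prop :=
  H.c t x = 1 ∧ ∀ y, y < x → (H.c t y = 0 ∨ H.c t y = 2 ∨ H.c t y = 3 ∨ H.c t y = 4) ∧
    (H.c t y = 4 → H.r t (y+1) ≤ 5)

variable {H : Half} {z0 : ℤ}

theorem wl_mach {t : ℕ} {x M : ℤ} {b : ℕ} {Q : ℤ → ℕ} {τ : ℤ} (hb : b ≤ 1)
    (h : Mach H z0 t x M b Q τ) : Wl H t x := by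
  obtain ⟨ho, hz, hq, hr, hc, hw, h1, h2, h3⟩ := h
  refine ⟨hw, fun y hy => ?_⟩
  rcases lt_trichotomy y M with e | e | e
  · obtain ⟨-, a1, a2, a3, a4⟩ := ho y e
    have r1 : H.r t (y+1) = 0 := by
      by_cases e' : y + 1 = M
      · rw [e', hr]
      · exact (ho (y+1) (by omega)).2.1
    refine ⟨?_, fun _ => by omega⟩
    by_cases e2 : y = zp z0 t
    · rcases Nat.mod_two_eq_zero_or_one t with p | p
      · have := a3 e2 p; omega
      · have := a4 e2 p; omega
    · have := a2 e2; omega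
  · subst e
    exact ⟨by omega, fun h => by omega⟩
  · have := h1 y e hy
    exact ⟨by omega, fun h => by omega⟩

theorem wl_ch {t : ℕ} {x b rp lp : ℤ} {σ : ℕ} (hb : b < x) (h : Ch H z0 t x b rp lp σ) :
    Wl H t x := by
  obtain ⟨ho, hz, hq, hr, hl, hc, hc', hw, h1, h2, h3⟩ := h
  refine ⟨hw, fun y hy => ?_⟩
  rcases lt_trichotomy y b with e | e | e
  · obtain ⟨-, a1, a2, a3, a4⟩ := ho y e
    have r1 : H.r t (y+1) = 0 := by
      by_cases e' : y + 1 = b
      · rw [e', hr]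
      · exact (ho (y+1) (by omega)).2.1
    refine ⟨?_, fun _ => by omega⟩
    by_cases e2 : y = zp z0 t
    · rcases Nat.mod_two_eq_zero_or_one t with p | p
      · have := a3 e2 p; omega
      · have := a4 e2 p; omega
    · have := a2 e2; omega
  · subst e
    refine ⟨?_, fun h => ?_⟩
    · by_cases e2 : zp z0 t = y
      · have := hc e2; omega
      · have := hc' e2; omega
    · have := (h2 (y+1) (by omega) (by omega)).2
      by_cases e3 : y + 1 = rp
      · have := this.1 e3; omega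
      · have := this.2 e3; omega
  · have := h1 y e hy
    exact ⟨by omega, fun h => by omega⟩

theorem keep {t : ℕ} {x b rp lp : ℤ} {σ : ℕ} (hb : b < x) (hr : x < rp)
    (h : Ch H z0 t x b rp lp σ) : H.c (t+1) x = 1 := by
  obtain ⟨ho, hz, hq, hr', hl, hc, hc', hw, h1, h2, h3⟩ := h
  have := (h2 x hb le_rfl).2.2 (by omega)
  exact (H.step t x 1 (H.l t x) (H.r t x) (h2 x hb le_rfl).1 (R7 (by omega))).1

theorem event' {t N s : ℕ} (hN : 0 < N) {x M τ : ℤ} {Q : ℤ → ℕ} (hx : x - M = N)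
    (h : Mach H z0 t x M 1 Q τ) (p0 : Q τ = 4)
    (p1 : ∀ p, τ < p → p < τ + 2 * (x - M) → Q p = 0)
    (hs : (s : ℤ) = 2 * (M - z0) + t - 1) (hsN : N + 2 ≤ s) :
    (∀ i, i ≤ N + 1 → Wl H (t + i) x) ∧ (∀ i, N + 2 ≤ i → i ≤ s + 1 → Wl H (t + i) (x - 1)) ∧
    H.c (t + (N + 1) + 1) x = 1 ∧
    Mach H z0 (t + s + 1) (x - 1) (M - s) 0 (Qs (N - 1 + s)) (1 - 2 * N) := by
  have hz : ∀ n : ℕ, n < s → zp z0 (t + n) < M - n := by
    intro n hn; unfold zp; omega
  have ph1 : ∀ n : ℕ, n + 1 ≤ N → Ch H z0 (t + (n + 1)) x (M - (n + 1 : ℕ)) (M + (n + 1 : ℕ))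
      (M - (n + 1 : ℕ)) 7 := by
    intro n
    induction n with
    | zero => intro _; simpa using pick (by omega) h p0 p1
    | succ n ih =>
      intro hn
      have := ch_step (lp' := M - (n + 1 + 1 : ℕ)) (σ := 7) (by omega) (ih (by omega))
        (hz _ (by omega)) (by omega) (by omega)
      convert this using 1 <;> omega
  have ph2 := ch_step (lp' := x - 1) (σ := 6) (by omega) (ph1 (N - 1) (by omega))
        (hz _ (by omega)) (by omega) (by omega)
  have e2 : t + (N - 1 + 1) + 1 = t + (N + 1) := by omega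
  have k := keep (by omega) (by omega) ph2
  have ph3 := ch_dep (by omega) ph2 (by have := hz (N - 1 + 1 + 1) (by omega); rw [← add_assoc] at this; omega) (by omega)
  have ph4 : ∀ n : ℕ, N + 2 + n ≤ s → Ch H z0 (t + (N + 2 + n)) (x - 1) (M - (N + 2 + n : ℕ))
      (x + 1 + n) (x - 2 - n) 7 := by
    intro n
    induction n with
    | zero => intro _; convert ph3 using 1 <;> omega
    | succ n ih =>
      intro hn
      have := ch_step (lp' := x - 2 - (n + 1 : ℕ)) (σ := 7) (by omega) (ih (by omega))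
        (hz _ (by omega)) (by omega) (by omega)
      convert this using 1 <;> omega
  have fin := ch_catch (Q := Qs (N - 1 + s)) (ph4 (s - (N + 2)) (by omega)) (by unfold zp; omega)
    (by omega) (by omega) (by omega) (by simp [Qs]) (fun p a b => Qs_small a (by omega))
  have fin' : Mach H z0 (t + s + 1) (x - 1) (M - s) 0 (Qs (N - 1 + s)) (1 - 2 * N) := by
    convert fin using 1 <;> omega
  refine ⟨fun i hi => ?_, fun i h1 h2 => ?_, ?_, fin'⟩
  · rcases i with _ | i
    · exact wl_mach le_rfl h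
    by_cases e : i + 1 ≤ N
    · exact wl_ch (by omega) (ph1 i e)
    · have := wl_ch (by omega) ph2
      rwa [e2, show N + 1 = i + 1 by omega] at this
  · by_cases e : i ≤ s
    · have := wl_ch (by omega) (ph4 (i - (N + 2)) (by omega))
      rwa [show N + 2 + (i - (N + 2)) = i by omega] at this
    · have := wl_mach (by omega) fin'
      rwa [show t + i = t + s + 1 by omega]
  · rwa [← e2]

theorem bs_le (N : ℕ) (p : ℤ) : bs N p ≤ 1 := by
  unfold bs; split_ifs <;> omega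

/-- exponent of the length of the control words available in stage `a` -/
def E (a : ℕ) : ℕ := 28 * (a + 1) * (a + 1) + 14 * (a + 1)

theorem stages' (a : ℕ) : ∃ (X : ℕ → ℤ) (t N : ℕ) (τ : ℤ), 4 ^ E a < N ∧
    -(N : ℤ) < τ ∧ τ ≤ 0 ∧ zp (-2 - 4 ^ 43) t < -(a + 1 : ℕ) - N ∧
    (X 0 = -1 ∧ X 1 = -1 ∧ X 2 = -1) ∧ (∀ s, t ≤ s → X s = -(a + 1 : ℕ)) ∧
    (∀ s, X (s+1) = X s ∨ X (s+1) = X s - 1) ∧ (∀ s, X (s+1) ≠ X s → X (s+2) = X (s+1)) ∧
    ∀ H, Init H → (∀ s, s ≤ t → Wl H s (X s)) ∧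
      (∀ s, X (s+1) ≠ X s → H.c (s+1) (X s) = 1) ∧
      Mach H (-2 - 4 ^ 43) t (-(a + 1 : ℕ)) (-(a + 1 : ℕ) - N) 0 (Qs N) τ := by
  induction a with
  | zero =>
    refine ⟨fun _ => -1, 0, 4 ^ 43, 0, by norm_num [E], by norm_num, le_rfl, by norm_num [zp],
      ⟨rfl, rfl, rfl⟩, fun _ _ => by simp, fun _ => Or.inl rfl, fun _ h => rfl, fun H h => ?_⟩
    have h' : Mach H (-2 - 4 ^ 43) 0 (-((0 : ℕ) + 1 : ℕ)) (-((0 : ℕ) + 1 : ℕ) - (4 ^ 43 : ℕ)) 0
        (Qs (4 ^ 43)) 0 := by simpa [Init] using h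
    refine ⟨fun s hs => ?_, fun s hs => absurd rfl hs, h'⟩
    obtain rfl : s = 0 := by omega
    exact wl_mach (by omega) h'
  | succ a ih =>
    obtain ⟨X, t, N, τ, h1, h2, h3, h4, ⟨i0, i1, i2⟩, x1, x2, x3, h5⟩ := ih
    generalize (-2 - 4 ^ 43 : ℤ) = z0 at *
    have e1 : E a < 4 ^ E a := Nat.lt_pow_self (by norm_num)
    have e0 : E (a + 1) ≤ 2 * 4 ^ E a - 1 := by
      have q : ∀ m : ℕ, 14 ≤ m → m * 8 + 2 ≤ 4 ^ m := by
        intro m hm
        induction m, hm using Nat.le_induction with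
        | base => norm_num
        | succ m _ ih => rw [pow_succ]; omega
      have := q (E a) (by unfold E; omega)
      have e3 : E (a + 1) ≤ 4 * E a := by
        unfold E; nlinarith [sq_nonneg (a : ℤ)]
      omega
    have e2 : 4 ^ E (a + 1) ≤ 4 ^ (2 * N - 1) :=
      Nat.pow_le_pow_right (by norm_num) (by omega)
    have e3 : 4 ^ (2 * N - 1) ≤ 2 * N * 4 ^ (2 * N - 1) := Nat.le_mul_of_pos_left _ (by omega)
    have e4 : 2 * N ≤ 2 * N * 4 ^ (2 * N - 1) := Nat.le_mul_of_pos_right _ (by positivity)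
    obtain ⟨D, hD⟩ : ∃ D, D = 2 * N * 4 ^ (2 * N - 1) := ⟨_, rfl⟩
    obtain ⟨n, hn⟩ : ∃ n : ℕ, τ + n = D := ⟨(D - τ).toNat, by omega⟩
    obtain ⟨s, hs⟩ : ∃ s : ℕ, (s : ℤ) = 2 * (-(a + 1 : ℕ) - N - z0) + (t + n : ℕ) - 1 :=
      ⟨(2 * (-(a + 1 : ℕ) - N - z0) + (t + n : ℕ) - 1).toNat, by unfold zp at h4; omega⟩
    have hs2 : D + 1 ≤ s := by unfold zp at h4; omega
    have m1 : 2 * N * (4 ^ (2 * N - 1) - 1) + 2 * N = D := by
      rw [hD, ← Nat.mul_succ]; congr 1
      have : 0 < 4 ^ (2 * N - 1) := by positivity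
      omega
    have key : ∀ H, Init H → (∀ m : ℕ, m ≤ n → Wl H (t + m) (-(a + 1 : ℕ))) ∧
        (∀ i, i ≤ N + 1 → Wl H (t + n + i) (-(a + 1 : ℕ))) ∧
        (∀ i, N + 2 ≤ i → i ≤ s + 1 → Wl H (t + n + i) (-(a + 1 : ℕ) - 1)) ∧
        H.c (t + n + (N + 1) + 1) (-(a + 1 : ℕ)) = 1 ∧
        Mach H z0 (t + n + s + 1) (-(a + 1 : ℕ) - 1) (-(a + 1 : ℕ) - N - s) 0 (Qs (N - 1 + s))
          (1 - 2 * N) := by
      intro H h
      have b0 : bs N τ = 0 := by simp [bs, h3]
      have k0 := (h5 H h).2.2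
      rw [← b0] at k0
      have k1 : ∀ m : ℕ, m ≤ n → Wl H (t + m) (-(a + 1 : ℕ)) := fun m hm =>
        wl_mach (bs_le _ _) (stage (N := N) (by omega) (by omega) h2 k0 m (by omega))
      have k := stage (N := N) (by omega) (by omega) h2 k0 n (by omega)
      rw [hn, bs_eval (N := N) (k := 4 ^ (2 * N - 1) - 1) (i := 2 * N - 1) (by omega) (by omega),
        if_pos (by rw [Nat.sub_add_cancel (Nat.one_le_pow _ _ (by norm_num))])] at k
      exact ⟨k1, event' (N := N) (s := s) (by omega) (by omega) k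
        (by rw [Qs_eval (N := N) (k := 4 ^ (2 * N - 1)) (i := 0) (by omega) (by omega) (by omega)]; rfl)
        (fun p u v => by
          rw [Qs_eval (N := N) (k := 4 ^ (2 * N - 1)) (i := (p - D).toNat) (by omega) (by omega)
            (by omega)]
          unfold wd
          rw [if_neg (by omega), Nat.pow_div (by omega) (by norm_num)]
          obtain ⟨m, hm⟩ : ∃ m, 2 * N - 1 - ((p - D).toNat - 1) = m + 1 := ⟨_, (Nat.sub_add_cancel (by omega)).symm⟩
          rw [hm, pow_succ]; omega) hs (by omega)⟩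
    have ht : 3 ≤ t + n + N := by omega
    refine ⟨fun u => if u ≤ t + n + N + 1 then X u else -(a + 1 + 1 : ℕ), t + n + s + 1, N - 1 + s,
      1 - 2 * N, by omega, by omega, by omega, by unfold zp; omega, ⟨?_, ?_, ?_⟩, ?_, ?_, ?_,
      fun H h => ⟨?_, ?_, ?_⟩⟩
    · dsimp only; rw [if_pos (by omega)]; exact i0
    · dsimp only; rw [if_pos (by omega)]; exact i1
    · dsimp only; rw [if_pos (by omega)]; exact i2
    · intro u hu
      dsimp only; rw [if_neg (by omega)]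
    · intro u
      have := x2 u
      have := x1 u
      dsimp only
      split_ifs <;> omega
    · intro u
      have := x3 u
      have := x1 u
      have := x1 (u+1)
      dsimp only
      split_ifs <;> omega
    · intro u hu
      obtain ⟨a1, a2, a3, -⟩ := key H h
      dsimp only
      by_cases c1 : u ≤ t
      · rw [if_pos (by omega)]; exact (h5 H h).1 u c1
      by_cases c2 : u ≤ t + n
      · rw [if_pos (by omega), x1 u (by omega)]
        have := a1 (u - t) (by omega)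
        rwa [show t + (u - t) = u by omega] at this
      by_cases c3 : u ≤ t + n + N + 1
      · rw [if_pos (by omega), x1 u (by omega)]
        have := a2 (u - (t + n)) (by omega)
        rwa [show t + n + (u - (t + n)) = u by omega] at this
      · rw [if_neg (by omega)]
        have := a3 (u - (t + n)) (by omega) (by omega)
        rw [show t + n + (u - (t + n)) = u by omega] at this
        convert this using 1; omega
    · intro u hu
      dsimp only at hu ⊢
      by_cases c1 : u + 1 ≤ t + n + N + 1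
      · rw [if_pos c1, if_pos (by omega)] at hu
        rw [if_pos (by omega)]; exact (h5 H h).2.1 u hu
      by_cases c2 : u ≤ t + n + N + 1
      · rw [if_pos c2, x1 u (by omega), show u = t + n + (N + 1) by omega]
        exact (key H h).2.2.2.1
      · rw [if_neg (by omega), if_neg (by omega)] at hu
        exact absurd rfl hu
    · convert (key H h).2.2.2.2 using 1 <;> omega

/-- the wall stays at `-(a+1)` for a long time, in which every control word is read -/
theorem machine' (a R : ℕ) (hR : R ≤ 4 ^ E a) (u : ℕ → ℕ) (hu : ∀ n, u n < 4) :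
    ∃ (X : ℕ → ℤ) (t : ℕ), R ≤ t ∧ (X 0 = -1 ∧ X 1 = -1 ∧ X 2 = -1) ∧
      (∀ s, t - R ≤ s → X s = -(a + 1 : ℕ)) ∧
      (∀ s, X (s+1) = X s ∨ X (s+1) = X s - 1) ∧ (∀ s, X (s+1) ≠ X s → X (s+2) = X (s+1)) ∧
      ∀ H, Init H → (∀ s, s ≤ t + 4 ^ E a → Wl H s (X s)) ∧
        (∀ s, X (s+1) ≠ X s → H.c (s+1) (X s) = 1) ∧
        ∀ n, n < 4 ^ E a → H.c (t + n) (-(a + 1 : ℕ)) = 1 ∧
          H.q (t + n) (-(a + 1 : ℕ)) ∧ H.r (t + n) (-(a + 1 : ℕ)) = u n := by
  obtain ⟨X, t, N, τ, h1, h2, h3, h4, i0, x1, x2, x3, h5⟩ := stages' a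
  generalize 4 ^ E a = L at *
  obtain ⟨k, k1, k2, k3⟩ := digits_ex L u hu
  have e2 : 4 ^ (L + 1) ≤ 4 ^ (2 * N - 1) := Nat.pow_le_pow_right (by norm_num) (by omega)
  have e3 : 2 * N * (k + 1) ≤ 2 * N * 4 ^ (2 * N - 1) := Nat.mul_le_mul_left _ (by omega)
  have e4 : 2 * N ≤ 2 * N * k := Nat.le_mul_of_pos_right _ (by omega)
  have m1 : 2 * N * (k + 1) = 2 * N * k + 2 * N := by ring
  obtain ⟨m, hm⟩ : ∃ m : ℕ, τ + m + N = (2 * N * k : ℕ) + 1 :=
    ⟨((2 * N * k : ℕ) + 1 - N - τ).toNat, by omega⟩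
  refine ⟨X, t + m, by omega, i0, fun s hs => x1 s (by omega), x2, x3, fun H h => ?_⟩
  obtain ⟨a1, a2, a3⟩ := h5 H h
  have b0 : bs N τ = 0 := by simp [bs, h3]
  rw [← b0] at a3
  refine ⟨fun s hs => ?_, a2, fun n hn => ?_⟩
  · by_cases e : s ≤ t
    · exact a1 s e
    · rw [x1 s (by omega)]
      have := wl_mach (bs_le _ _) (stage (N := N) (by omega) (by omega) h2 a3 (s - t) (by omega))
      rwa [show t + (s - t) = s by omega] at this
  · have := stage (N := N) (by omega) (by omega) h2 a3 (m + n) (by omega)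
    rw [← add_assoc] at this
    obtain ⟨-, -, -, -, -, w, -, w2, -⟩ := this
    obtain ⟨w2, w3⟩ := w2 _ (by omega) le_rfl
    refine ⟨w, w2, ?_⟩
    rw [w3, Qs_eval (N := N) (k := k) (i := n + 1) (by omega) (by omega) (by omega)]
    simp only [wd, Nat.add_one_ne_zero, if_false, Nat.add_sub_cancel]
    exact k3 n hn

end Pool.Agent.H63.UP
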