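import Mathlib

set_option autoImplicit false

namespace Pool.Agent.Helper52.TD

/-- one side of a row: `k` is the control exerted on the row, `kk` the control exerted by it -/
structure Side where
  c : ℕ → ℤ → ℕ
  r : ℕ → ℤ → ℕ
  l : ℕ → ℤ → ℕ
  h : ℕ → ℤ → Bool
  g : ℕ → ℤ → Bool
  k : ℕ → ℤ → ℕ
  kk : ℕ → ℤ → ℕ
  free : ∀ t y, k t y = 0 → c t y = 0 → r t y = 0 → (l t y = 0 ∨ l t y = 7) → h t y = false →
    g t y = false → c (t+1) y = 0 ∧ r (t+1) (y+1) = 0 ∧ h (t+1) (y+1) = false ∧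
      l (t+1) (y-1) = l t y ∧ g (t+1) (y-1) = false
  wall : ∀ t y, k t y = 1 → c t y = 1 → r t y = 0 → h t y = false →
    c (t+1) y = 1 ∧ l (t+1) (y-1) = 0 ∧ g (t+1) (y-1) = false
  make : ∀ t y, k t y = 1 → c t y = 0 → r t y = 0 → l t y = 0 → h t y = false → g t y = false →
    c (t+1) y = 1 ∧ r (t+1) (y+1) = 0 ∧ h (t+1) (y+1) = false ∧ l (t+1) (y-1) = 7 ∧
      g (t+1) (y-1) = false
  kfree : ∀ t y, c t y = 0 → r t y = 0 → (l t y = 0 ∨ l t y = 7) → h t y = false →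
    g t y = false → kk t y = 0
  kwall : ∀ t y, c t y = 1 → r t y = 0 → h t y = false → kk t y = 1

/-- the controls seen by a row -/
def Ctl (k : ℕ → ℤ → ℕ) (T : ℕ) (x : ℕ → ℤ) (M : ℕ) : Prop :=
  ∀ n, n ≤ M → k (T + n) (x n) = 1 ∧ (∀ y, y < x n → k (T + n) y = 0) ∧
    ∀ m, n = m + 1 → x n ≠ x m → k (T + n) (x m) = 1

/-- the outside of a walled row -/
def Walled (s : Side) (T : ℕ) (x : ℕ → ℤ) (M : ℕ) : Prop :=
  ∀ n, n ≤ M → (s.c (T + 1 + n) (x n) = 1 ∧ s.r (T + 1 + n) (x n) = 0 ∧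
      s.h (T + 1 + n) (x n) = false) ∧
    (∀ y, y < x n → s.c (T + 1 + n) y = 0 ∧ s.r (T + 1 + n) y = 0 ∧
      (s.l (T + 1 + n) y = 0 ∨ s.l (T + 1 + n) y = 7) ∧ s.h (T + 1 + n) y = false ∧
      s.g (T + 1 + n) y = false) ∧
    (∀ m, n = m + 1 → x n = x m → s.l (T + 1 + n) (x n - 1) = 0) ∧
    (∀ m, n = m + 1 → x n ≠ x m → s.c (T + 1 + n) (x m) = 1 ∧ s.r (T + 1 + n) (x m) = 0 ∧
      s.h (T + 1 + n) (x m) = false)

theorem walled_ctl {s : Side} {T : ℕ} {x : ℕ → ℤ} {M : ℕ} (h : Walled s T x M) :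
    Ctl s.kk (T + 1) x M := by
  intro n hn
  obtain ⟨⟨a1, a2, a3⟩, b, -, d⟩ := h n hn
  refine ⟨s.kwall _ _ a1 a2 a3, fun y hy => ?_, fun m e1 e2 => ?_⟩
  · obtain ⟨b1, b2, b3, b4, b5⟩ := b y hy
    exact s.kfree _ _ b1 b2 b3 b4 b5
  · obtain ⟨d1, d2, d3⟩ := d m e1 e2
    exact s.kwall _ _ d1 d2 d3

theorem ctl_walled {s : Side} {T : ℕ} {x : ℕ → ℤ} {M : ℕ} (h : Ctl s.k T x M)
    (x1 : x 1 = x 0) (x2 : ∀ n, x (n+1) = x n ∨ x (n+1) = x n - 1)
    (x3 : ∀ n, x (n+1) ≠ x n → x (n+2) = x (n+1))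
    (hb : ∀ y, s.c T y = 0 ∧ s.r T y = 0 ∧ s.l T y = 0 ∧ s.h T y = false ∧ s.g T y = false) :
    Walled s T x M := by
  intro n
  induction n with
  | zero =>
    intro _
    obtain ⟨k1, k2, -⟩ := h 0 (Nat.zero_le _)
    obtain ⟨b1, b2, b3, b4, b5⟩ := hb (x 0)
    obtain ⟨m1, m2, m3, m4, m5⟩ := s.make _ _ k1 b1 b2 b3 b4 b5
    have f : ∀ y, y < x 0 → _ := fun y hy => by
      obtain ⟨b1, b2, b3, b4, b5⟩ := hb y
      exact s.free _ y (k2 y hy) b1 b2 (Or.inl b3) b4 b5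
    simp only [add_zero] at *
    refine ⟨⟨m1, ?_⟩, fun y hy => ?_, fun m e => absurd e (by omega), fun m e => absurd e (by omega)⟩
    · obtain ⟨-, f2, f3, -⟩ := f (x 0 - 1) (by omega)
      rw [sub_add_cancel] at f2 f3
      exact ⟨f2, f3⟩
    · obtain ⟨f1, -⟩ := f y hy
      obtain ⟨-, f2, f3, -⟩ := f (y - 1) (by omega)
      rw [sub_add_cancel] at f2 f3
      by_cases e : y + 1 = x 0
      · rw [← e, add_sub_cancel_right] at m4 m5
        exact ⟨f1, f2, Or.inr m4, f3, m5⟩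
      · obtain ⟨-, -, -, f4, f5⟩ := f (y + 1) (by omega)
        rw [add_sub_cancel_right] at f4 f5
        exact ⟨f1, f2, Or.inl (by rw [f4]; exact (hb _).2.2.1), f3, f5⟩
  | succ n ih =>
    intro hn
    obtain ⟨⟨a1, a2, a3⟩, b, c, -⟩ := ih (by omega)
    obtain ⟨k1, k2, k3⟩ := h (n+1) hn
    rw [show T + (n + 1) = T + 1 + n by ring] at k1 k2 k3
    have f : ∀ y, y < x n → y < x (n+1) → _ := fun y hy hy' => by
      obtain ⟨b1, b2, b3, b4, b5⟩ := b y hy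
      exact s.free _ y (k2 y hy') b1 b2 b3 b4 b5
    rw [show T + 1 + (n + 1) = T + 1 + n + 1 by ring]
    rcases x2 n with e | e
    · rw [e] at k1 k2 f ⊢
      obtain ⟨w1, w2, w3⟩ := s.wall _ _ k1 a1 a2 a3
      refine ⟨⟨w1, ?_⟩, fun y hy => ?_, fun _ _ _ => w2, fun m e1 e2 => ?_⟩
      · obtain ⟨-, f2, f3, -⟩ := f (x n - 1) (by omega) (by omega)
        rw [sub_add_cancel] at f2 f3
        exact ⟨f2, f3⟩
      · obtain ⟨f1, -⟩ := f y hy hy
        obtain ⟨-, f2, f3, -⟩ := f (y - 1) (by omega) (by omega)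
        rw [sub_add_cancel] at f2 f3
        by_cases e : y + 1 = x n
        · rw [← e, add_sub_cancel_right] at w2 w3
          exact ⟨f1, f2, Or.inl w2, f3, w3⟩
        · obtain ⟨-, -, -, f4, f5⟩ := f (y + 1) (by omega) (by omega)
          rw [add_sub_cancel_right] at f4 f5
          exact ⟨f1, f2, by rw [f4]; exact (b _ (by omega)).2.2.1, f3, f5⟩
      · obtain rfl : n = m := by omega
        exact absurd rfl e2
    · have ne : x (n+1) ≠ x n := by omega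
      have k3 := k3 n rfl ne
      obtain ⟨w1, w2, w3⟩ := s.wall _ _ k3 a1 a2 a3
      have l0 : s.l (T + 1 + n) (x (n+1)) = 0 := by
        rcases n with _ | n
        · simp only [Nat.zero_add] at e; omega
        · have := x2 n
          have q : x (n+1) = x n := by
            by_contra q
            exact ne (x3 n q)
          rw [e]; exact c n rfl q
      obtain ⟨b1, b2, -, b4, b5⟩ := b (x (n+1)) (by omega)
      obtain ⟨m1, m2, m3, m4, m5⟩ := s.make _ _ k1 b1 b2 l0 b4 b5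
      rw [e] at k1 k2 f m1 m2 m3 m4 m5 ⊢
      rw [sub_add_cancel] at m2 m3
      refine ⟨⟨m1, ?_⟩, fun y hy => ?_, fun m e1 e2 => ?_, fun m e1 _ => ?_⟩
      · obtain ⟨-, f2, f3, -⟩ := f (x n - 1 - 1) (by omega) (by omega)
        rw [sub_add_cancel] at f2 f3
        exact ⟨f2, f3⟩
      · obtain ⟨f1, -⟩ := f y (by omega) hy
        obtain ⟨-, f2, f3, -⟩ := f (y - 1) (by omega) (by omega)
        rw [sub_add_cancel] at f2 f3
        by_cases e : y + 1 = x n - 1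
        · rw [← e, add_sub_cancel_right] at m4 m5
          exact ⟨f1, f2, Or.inr m4, f3, m5⟩
        · obtain ⟨-, -, -, f4, f5⟩ := f (y + 1) (by omega) (by omega)
          rw [add_sub_cancel_right] at f4 f5
          exact ⟨f1, f2, by rw [f4]; exact (b _ (by omega)).2.2.1, f3, f5⟩
      · obtain rfl : n = m := by omega
        omega
      · obtain rfl : n = m := by omega
        exact ⟨w1, m2, m3⟩

end Pool.Agent.Helper52.TD
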