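import Pool.Graph.R_pool_sql_team_ae5b0c61.H63.UP4
import Pool.Agent.Helper52.TD.A
import Pool.Agent.Helper52.TD.B

set_option autoImplicit false
open Function Pool.Agent.H63.UP

namespace Pool.Agent.Helper52.TD
noncomputable section

theorem ex_PL : ∃ π : Equiv.Perm S, π z = ((1, 0, 7), false, false) ∧
    ∀ (l : Fin 13) (g : Bool), π ((1, 0, l), false, g) = ((1, l, 0), g, false) := by
  obtain ⟨π, h⟩ := Equiv.Perm.exists_extending_pair (α := Option (Fin 13 × Bool))
    (fun p => match p with
      | none => z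
      | some q => (((1, 0, q.1), false, q.2) : S))
    (fun p => match p with
      | none => (((1, 0, 7), false, false) : S)
      | some q => ((1, q.1, 0), q.2, false))
    (by
      rintro (_ | ⟨a, b⟩) (_ | ⟨a', b'⟩) e
      · rfl
      · simp [z] at e
      · simp [z] at e
      · simp at e; simp [e])
    (by
      rintro (_ | ⟨a, b⟩) (_ | ⟨a', b'⟩) e
      · rfl
      · simp at e
      · simp at e
      · simp at e; simp [e])
  exact ⟨π, h none, fun l g => h (some (l, g))⟩

theorem ex_PR : ∃ π : Equiv.Perm S, π z = ((5, 7, 0), false, false) ∧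
    ∀ (r : Fin 13) (h : Bool), π ((5, r, 0), h, false) = ((5, 0, r), false, h) := by
  obtain ⟨π, h⟩ := Equiv.Perm.exists_extending_pair (α := Option (Fin 13 × Bool))
    (fun p => match p with
      | none => z
      | some q => (((5, q.1, 0), q.2, false) : S))
    (fun p => match p with
      | none => (((5, 7, 0), false, false) : S)
      | some q => ((5, 0, q.1), false, q.2))
    (by
      rintro (_ | ⟨a, b⟩) (_ | ⟨a', b'⟩) e
      · rfl
      · simp [z] at e
      · simp [z] at e
      · simp at e; simp [e])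
    (by
      rintro (_ | ⟨a, b⟩) (_ | ⟨a', b'⟩) e
      · rfl
      · simp at e
      · simp at e
      · simp at e; simp [e])
  exact ⟨π, h none, fun l g => h (some (l, g))⟩

theorem ex_rho : ∃ σ : Equiv.Perm S, ∀ x y, ∃ n, σ^[n] x = y := by
  have e : S ≃ ZMod 6084 := Fintype.equivOfCardEq (by simp)
  refine ⟨(e.trans (Equiv.addRight 1)).trans e.symm, fun x y => ⟨(e y - e x).val, ?_⟩⟩
  have : ∀ n : ℕ, ((e.trans (Equiv.addRight 1)).trans e.symm)^[n] x = e.symm (e x + n) := by
    intro n
    induction n with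
    | zero => simp
    | succ n ih => rw [iterate_succ_apply', ih]; simp [add_assoc]
  rw [this]; simp

def PL : Equiv.Perm S := ex_PL.choose
def PR : Equiv.Perm S := ex_PR.choose
def rho : Equiv.Perm S := ex_rho.choose

/-- the control exerted by a cell on the cell above it -/
def kap (v : S) : ℕ :=
  if (P v).1.1 = 1 then 1 else if (P v).1.1 = 5 then 2 else if (P v).1 = (4, 12, 12) then 3 else 0

/-- the local permutation under the control `k` -/
def act (k : ℕ) (v : S) : S :=
  if k = 1 then PL v else if k = 2 then PR v else if k = 3 then P (rho v) else P v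

theorem act_inj (k : ℕ) : Injective (act k) := by
  intro v w e
  unfold act at e
  split_ifs at e
  · exact PL.injective e
  · exact PR.injective e
  · exact rho.injective (P_inj e)
  · exact P_inj e

/-- the two-dimensional cellular automaton; `y j i` is the state of the cell `i` of the row `j` -/
def F2 (y : ℤ → ℤ → S) (j : ℤ) : ℤ → S := Mv fun i => act (kap (y (j-1) i)) (y j i)

theorem kap_z : kap z = 0 := by unfold kap; rw [P_z]; simp [z]

theorem act_zero : act 0 = P := by funext v; simp [act]

theorem Mv_z : Mv (fun _ => z) = fun _ => z := rfl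

/-- the initial configuration -/
def y0 (j i : ℤ) : S := if j = 0 then x0 (4 ^ 43 : ℕ) i else z

/-- the orbit -/
def G (t : ℕ) : ℤ → ℤ → S := F2^[t] y0

theorem G_succ (t : ℕ) (j : ℤ) : G (t+1) j = Mv fun i => act (kap (G t (j-1) i)) (G t j i) := by
  unfold G; rw [iterate_succ_apply']; rfl

theorem G_neg (t : ℕ) (j : ℤ) (h : j < 0) : G t j = fun _ => z := by
  induction t generalizing j with
  | zero => funext i; simp only [G, iterate_zero, id, y0]; rw [if_neg (by omega)]
  | succ t ih =>
    rw [G_succ, ih _ h, ih _ (by omega)]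
    simp only [kap_z, act_zero, P_z]
    rfl

theorem G_zero (t : ℕ) : G t 0 = F^[t] (x0 (4 ^ 43 : ℕ)) := by
  induction t with
  | zero => funext i; simp [G, y0]
  | succ t ih =>
    rw [G_succ, ih, G_neg _ _ (by omega), iterate_succ_apply']
    simp only [kap_z, act_zero]
    rfl

theorem G_blank (t : ℕ) (j : ℤ) (h : t < j) : G t j = fun _ => z := by
  induction t generalizing j with
  | zero => funext i; simp only [G, iterate_zero, id, y0]; rw [if_neg (by omega)]
  | succ t ih =>
    rw [G_succ, ih _ (by omega), ih _ (by omega)]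
    simp only [kap_z, act_zero, P_z]
    rfl

/-! ### free cells, walls -/

theorem P_free {v : S} (hc : v.1.1.val = 0) (hr : v.1.2.1.val = 0)
    (hl : v.1.2.2.val = 0 ∨ v.1.2.2.val = 7) (hh : v.2.1 = false) :
    (P v).1.1.val = 0 ∧ (P v).1.2.1.val = 0 ∧ (P v).1.2.2 = v.1.2.2 ∧ (P v).2.1 = false ∧
      (P v).2.2 = v.2.2 := by
  obtain ⟨a, b, c, d, e⟩ := P_left (v := v) (a := 0) (b := v.1.2.1.val) (d := v.1.2.2.val) hh
    (R1 (by omega))
  exact ⟨a, by omega, Fin.ext c, by rw [d]; rfl, e⟩

theorem P_free' {v : S} (hc : v.1.1.val = 0) (hr : v.1.2.2.val = 0)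
    (hl : v.1.2.1.val = 0 ∨ v.1.2.1.val = 7) (hh : v.2.2 = false) :
    (P v).1.1.val = 0 ∧ (P v).1.2.2.val = 0 ∧ (P v).1.2.1 = v.1.2.1 ∧ (P v).2.2 = false ∧
      (P v).2.1 = v.2.1 := by
  have s1 := flN_spec (P v).1.1.val
  have s2 := flN_spec v.1.1.val
  obtain ⟨a, b, c, d, e⟩ := P_right (v := v) (a := 0) (b := v.1.2.2.val) (d := v.1.2.1.val) hh
    (R1 (by omega))
  exact ⟨by omega, by omega, Fin.ext c, by rw [d]; rfl, e⟩

theorem kap_free {v : S} (hc : v.1.1.val = 0) (hr : v.1.2.1.val = 0)
    (hl : v.1.2.2.val = 0 ∨ v.1.2.2.val = 7) (hh : v.2.1 = false) : kap v = 0 := by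
  obtain ⟨a, b, -⟩ := P_free hc hr hl hh
  unfold kap
  rw [if_neg (fun h => by rw [h] at a; exact absurd a (by decide)),
    if_neg (fun h => by rw [h] at a; exact absurd a (by decide)),
    if_neg (fun h => by rw [h] at a; exact absurd a (by decide))]

theorem kap_free' {v : S} (hc : v.1.1.val = 0) (hr : v.1.2.2.val = 0)
    (hl : v.1.2.1.val = 0 ∨ v.1.2.1.val = 7) (hh : v.2.2 = false) : kap v = 0 := by
  obtain ⟨a, b, -⟩ := P_free' hc hr hl hh
  unfold kap
  rw [if_neg (fun h => by rw [h] at a; exact absurd a (by decide)),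
    if_neg (fun h => by rw [h] at a; exact absurd a (by decide)),
    if_neg (fun h => by rw [h] at a; exact absurd a (by decide))]

theorem kap_wall {v : S} (hc : v.1.1.val = 1) (hr : v.1.2.1.val = 0) (hh : v.2.1 = false) :
    kap v = 1 := by
  obtain ⟨a, -⟩ := P_left (v := v) (a := 1) (b := v.1.2.2.val) (d := v.1.2.1.val) hh
    (R7 (by omega))
  unfold kap
  rw [if_pos (Fin.ext a)]

theorem kap_wall' {v : S} (hc : flN v.1.1.val = 1) (hr : v.1.2.2.val = 0) (hh : v.2.2 = false) :
    kap v = 2 := by
  have s1 := flN_spec (P v).1.1.val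
  obtain ⟨a, -⟩ := P_right (v := v) (a := 1) (b := v.1.2.1.val) (d := v.1.2.2.val) hh
    (R7 (by omega))
  have a : (P v).1.1 = 5 := Fin.ext (show (P v).1.1.val = 5 by omega)
  unfold kap
  rw [if_neg (by rw [a]; decide), if_pos a]

theorem S_ext {v w : S} (h1 : v.1.1.val = w.1.1.val) (h2 : v.1.2.1.val = w.1.2.1.val)
    (h3 : v.1.2.2.val = w.1.2.2.val) (h4 : v.2.1 = w.2.1) (h5 : v.2.2 = w.2.2) : v = w :=
  Prod.ext (D_ext ⟨h1, h2, h3⟩) (Prod.ext h4 h5)

/-- left view of the row `j` -/
def sideL (j : ℤ) : Side where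
  c t y := (G t j y).1.1
  r t y := (G t j y).1.2.1
  l t y := (G t j y).1.2.2
  h t y := (G t j y).2.1
  g t y := (G t j y).2.2
  k t y := kap (G t (j-1) y)
  kk t y := kap (G t j y)
  free t y hk hc hr hl hh hg := by
    obtain ⟨a1, a2, a3, a4, a5⟩ := P_free hc hr hl hh
    simp only [G_succ, Mv, sub_add_cancel, add_sub_cancel_right, hk, act_zero]
    exact ⟨a1, a2, a4, by rw [a3], by rw [a5, hg]⟩
  wall t y hk hc hr hh := by
    have e : G t j y = ((1, 0, (G t j y).1.2.2), false, (G t j y).2.2) :=
      S_ext hc hr rfl hh rfl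
    have e2 : act 1 (G t j y) = ((1, (G t j y).1.2.2, 0), (G t j y).2.2, false) := by
      conv_lhs => rw [e]
      simp only [act, if_true]
      exact ex_PL.choose_spec.2 _ _
    simp only [G_succ, Mv, sub_add_cancel, add_sub_cancel_right, hk, e2]
    exact ⟨rfl, rfl, trivial⟩
  make t y hk hc hr hl hh hg := by
    have e : G t j y = z := S_ext hc hr hl hh hg
    have e2 : act 1 (G t j y) = ((1, 0, 7), false, false) := by
      rw [e]; simp only [act, if_true]
      exact ex_PL.choose_spec.1
    simp only [G_succ, Mv, sub_add_cancel, add_sub_cancel_right, hk, e2]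
    exact ⟨rfl, rfl, trivial, rfl, trivial⟩
  kfree t y hc hr hl hh hg := kap_free hc hr hl hh
  kwall t y hc hr hh := kap_wall hc hr hh

/-- exchange the codes of the two walls -/
def swp (k : ℕ) : ℕ := if k = 1 then 2 else if k = 2 then 1 else k

/-- right view of the row `j` -/
def sideR (j : ℤ) : Side where
  c t y := flN (G t j (-y)).1.1
  r t y := (G t j (-y)).1.2.2
  l t y := (G t j (-y)).1.2.1
  h t y := (G t j (-y)).2.2
  g t y := (G t j (-y)).2.1
  k t y := swp (kap (G t (j-1) (-y)))
  kk t y := swp (kap (G t j (-y)))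
  free t y hk hc hr hl hh hg := by
    have hk : kap (G t (j-1) (-y)) = 0 := by unfold swp at hk; split_ifs at hk <;> omega
    have s1 := flN_spec (G t j (-y)).1.1.val
    obtain ⟨a1, a2, a3, a4, a5⟩ := P_free' (v := G t j (-y)) (by omega) hr hl hh
    simp only [G_succ, Mv, show -(y - 1) - 1 = -y by ring, show -(y + 1) + 1 = -y by ring, hk,
      act_zero]
    exact ⟨by rw [a1]; rfl, a2, a4, by rw [a3], by rw [a5, hg]⟩
  wall t y hk hc hr hh := by
    have hk : kap (G t (j-1) (-y)) = 2 := by unfold swp at hk; split_ifs at hk <;> omega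
    have s1 := flN_spec (G t j (-y)).1.1.val
    have e : G t j (-y) = ((5, (G t j (-y)).1.2.1, 0), (G t j (-y)).2.1, false) :=
      S_ext (show (G t j (-y)).1.1.val = 5 by omega) rfl hr rfl hh
    have e2 : act 2 (G t j (-y)) = ((5, 0, (G t j (-y)).1.2.1), false, (G t j (-y)).2.1) := by
      conv_lhs => rw [e]
      rw [act, if_neg (by decide), if_pos rfl]
      exact ex_PR.choose_spec.2 _ _
    simp only [G_succ, Mv, show -(y - 1) - 1 = -y by ring, show -(y + 1) + 1 = -y by ring, hk, e2]
    exact ⟨rfl, rfl, trivial⟩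
  make t y hk hc hr hl hh hg := by
    have hk : kap (G t (j-1) (-y)) = 2 := by unfold swp at hk; split_ifs at hk <;> omega
    have s1 := flN_spec (G t j (-y)).1.1.val
    have e : G t j (-y) = z := S_ext (show (G t j (-y)).1.1.val = 0 by omega) hl hr hg hh
    have e2 : act 2 (G t j (-y)) = ((5, 7, 0), false, false) := by
      rw [e, act, if_neg (by decide), if_pos rfl]
      exact ex_PR.choose_spec.1
    simp only [G_succ, Mv, show -(y - 1) - 1 = -y by ring, show -(y + 1) + 1 = -y by ring, hk, e2]
    exact ⟨rfl, rfl, trivial, rfl, trivial⟩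
  kfree t y hc hr hl hh hg := by
    have s1 := flN_spec (G t j (-y)).1.1.val
    rw [kap_free' (v := G t j (-y)) (by omega) hr hl hh]; rfl
  kwall t y hc hr hh := by rw [kap_wall' hc hr hh]; rfl

/-- the walls of all rows -/
theorem walls {X : ℕ → ℤ} {T : ℕ} (i0 : X 1 = -1 ∧ X 2 = -1)
    (x2 : ∀ s, X (s+1) = X s ∨ X (s+1) = X s - 1) (x3 : ∀ s, X (s+1) ≠ X s → X (s+2) = X (s+1))
    (hw : ∀ H, Init H → (∀ s, s ≤ T → Wl H s (X s)) ∧
      (∀ s, X (s+1) ≠ X s → H.c (s+1) (X s) = 1)) {M : ℕ} (hM : M + 1 ≤ T) (j : ℕ) :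
    Walled (sideL (j+1)) j (fun n => X (n+1)) M ∧ Walled (sideR (j+1)) j (fun n => X (n+1)) M := by
  have bl : ∀ j : ℕ, G j ((j : ℤ) + 1) = fun _ => z := fun j => G_blank _ _ (by omega)
  induction j with
  | zero =>
    obtain ⟨l1, l2⟩ := hw _ initL
    obtain ⟨r1, r2⟩ := hw _ initR
    have cl : ∀ t y, (vL (x0 (4 ^ 43 : ℕ))).c (t+1) y = (P (G t 0 y)).1.1.val := fun t y => by
      simp only [vL, iterate_succ_apply', F, Mv, G_zero]
    have rl : ∀ t y, (vL (x0 (4 ^ 43 : ℕ))).r (t+1) (y+1) = (P (G t 0 y)).1.2.1.val := fun t y => by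
      simp only [vL, iterate_succ_apply', F, Mv, G_zero, add_sub_cancel_right]
    have cr : ∀ t y, (vR (x0 (4 ^ 43 : ℕ))).c (t+1) y = flN (P (G t 0 (-y))).1.1.val := fun t y => by
      simp only [vR, iterate_succ_apply', F, Mv, G_zero]
    constructor
    · refine ctl_walled ?_ (by simp [i0]) (fun n => x2 _) (fun n => x3 _) (fun y => ?_)
      · intro n hn
        have k1 : ∀ y, (vL (x0 (4 ^ 43 : ℕ))).c (n+1) y = 1 → kap (G n 0 y) = 1 := fun y h => by
          rw [cl] at h
          unfold kap; rw [if_pos (Fin.ext h)]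
        simp only [sideL, Nat.zero_add, Nat.cast_zero, zero_add, sub_self]
        refine ⟨k1 _ (l1 (n+1) (by omega)).1, fun y hy => ?_, fun m e1 e2 => ?_⟩
        · obtain ⟨a, b⟩ := (l1 (n+1) (by omega)).2 y hy
          rw [cl] at a b
          rw [rl] at b
          unfold kap
          rw [if_neg (fun h => by rw [h] at a; revert a; decide),
            if_neg (fun h => by rw [h] at a; revert a; decide),
            if_neg (fun h => by rw [h] at b; exact absurd (b rfl) (by decide))]
        · subst e1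
          exact k1 _ (l2 _ e2)
      · simp only [sideL]
        have := bl 0
        simp only [Nat.cast_zero] at this ⊢
        rw [this]
        simp [z]
    · refine ctl_walled ?_ (by simp [i0]) (fun n => x2 _) (fun n => x3 _) (fun y => ?_)
      · intro n hn
        have k1 : ∀ y, (vR (x0 (4 ^ 43 : ℕ))).c (n+1) y = 1 → swp (kap (G n 0 (-y))) = 1 :=
          fun y h => by
          rw [cr] at h
          have s1 := flN_spec (P (G n 0 (-y))).1.1.val
          have a : (P (G n 0 (-y))).1.1 = 5 := Fin.ext (show (P (G n 0 (-y))).1.1.val = 5 by omega)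
          unfold kap
          rw [if_neg (by rw [a]; decide), if_pos a]; rfl
        simp only [sideR, Nat.zero_add, Nat.cast_zero, zero_add, sub_self]
        refine ⟨k1 _ (r1 (n+1) (by omega)).1, fun y hy => ?_, fun m e1 e2 => ?_⟩
        · obtain ⟨a, b⟩ := (r1 (n+1) (by omega)).2 y hy
          rw [cr] at a
          clear b
          unfold kap
          rw [if_neg (fun h => by rw [h] at a; revert a; decide),
            if_neg (fun h => by rw [h] at a; revert a; decide),
            if_neg (fun h => by rw [h] at a; revert a; decide)]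
          rfl
        · subst e1
          exact k1 _ (r2 _ e2)
      · simp only [sideR]
        have := bl 0
        simp only [Nat.cast_zero] at this ⊢
        rw [this]
        simp [z, flN]
  | succ j ih =>
    obtain ⟨a, b⟩ := ih
    have ea : (sideL ((j + 1 : ℕ) + 1)).k = (sideL (j + 1)).kk := by
      funext t y; simp only [sideL]; congr 2; push_cast; ring
    have eb : (sideR ((j + 1 : ℕ) + 1)).k = (sideR (j + 1)).kk := by
      funext t y; simp only [sideR]; congr 3; push_cast; ring
    refine ⟨ctl_walled (by rw [ea]; exact walled_ctl a) (by simp [i0]) (fun n => x2 _)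
      (fun n => x3 _) (fun y => ?_), ctl_walled (by rw [eb]; exact walled_ctl b) (by simp [i0])
      (fun n => x2 _) (fun n => x3 _) (fun y => ?_)⟩
    · simp only [sideL, bl (j+1)]
      simp [z]
    · simp only [sideR, bl (j+1)]
      simp [z, flN]

end
end Pool.Agent.Helper52.TD
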