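import Pool.Graph.R_pool_sql_team_ae5b0c61.H63.UP5
import Pool.Agent.Helper52.TD.C

set_option autoImplicit false
open Function Pool.Agent.H63.UP

namespace Pool.Agent.Helper52.TD
noncomputable section

/-- a blank row -/
def zr : ℤ → S := fun _ => z

/-- local maps of a row between two walls, above the row `low` -/
def O1 (a : ℤ) (low cur : ℤ → S) (i : ℤ) : S :=
  if i = -a then ((0, (cur i).1.2.2, 0), (cur i).2.2, false) else
  if i = a then ((0, 0, (cur i).1.2.1), false, (cur i).2.1) else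
  if -a < i ∧ i < a then act (kap (low i)) (cur i) else z

/-- one step of `R` rows between the walls, with the input `j` -/
def U2 (a : ℤ) (R : ℕ) (j : Bool × Bool) (Y : ℕ → ℤ → S) : ℕ → ℤ → S
  | 0 => U a j (Y 0)
  | k+1 => if k + 1 < R then Mv (O1 a (Y k) (Y (k+1))) else zr

/-- the states -/
def TT (a : ℤ) (R : ℕ) : Set (ℕ → ℤ → S) := {Y | (∀ k, k < R → Y k ∈ Nrm a) ∧ ∀ k, R ≤ k → Y k = zr}

/-- the output -/
def oo (a : ℤ) (Y : ℕ → ℤ → S) : Bool × Bool := ((Y 0 a).2.1, (Y 0 (-a)).2.2)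

variable {a : ℤ} {R : ℕ}

theorem zr_nrm : zr ∈ Nrm a := by
  funext i
  simp only [Cut, zr]
  split_ifs <;> rfl

theorem O1_nrm (ha : 0 < a) (low y : ℤ → S) : Mv (O1 a low y) ∈ Nrm a := by
  funext i
  simp only [Cut, Mv, O1]
  split_ifs <;> first | omega | rfl

theorem O1_inj (ha : 0 < a) {low y y' : ℤ → S} (hy : y ∈ Nrm a) (hy' : y' ∈ Nrm a)
    (e : Mv (O1 a low y) = Mv (O1 a low y')) : y = y' := by
  have e := Mv_inj e
  rw [← show Cut a y = y from hy, ← show Cut a y' = y' from hy']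
  funext i
  have e3 := congrFun e i
  simp only [O1] at e3
  simp only [Cut]
  split_ifs at e3 ⊢ with h1 h2 h3
  · simp only [Prod.mk.injEq] at e3
    rw [e3.1.2.1, e3.2.1]
  · simp only [Prod.mk.injEq] at e3
    rw [e3.1.2.2, e3.2.2]
  · exact act_inj _ e3
  · rfl

theorem U2_mem (ha : 0 < a) (hR : 0 < R) (j : Bool × Bool) (Y : ℕ → ℤ → S) :
    U2 a R j Y ∈ TT a R := by
  refine ⟨fun k hk => ?_, fun k hk => ?_⟩
  · rcases k with _ | k
    · exact U_nrm ha j _
    · simp only [U2, if_pos hk]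
      exact O1_nrm ha _ _
  · rcases k with _ | k
    · omega
    · simp only [U2, if_neg (show ¬ k + 1 < R by omega)]

theorem U2_inj (ha : 0 < a) (hR : 0 < R) : ∀ Y ∈ TT a R, ∀ Y' ∈ TT a R, ∀ j j',
    U2 a R j Y = U2 a R j' Y' → oo a Y = oo a Y' → Y = Y' ∧ j = j' := by
  intro Y hY Y' hY' j j' e o
  obtain ⟨e0, ej⟩ := Ot_inj ha _ (hY.1 0 hR) _ (hY'.1 0 hR) j j' (congrFun e 0) o
  refine ⟨?_, ej⟩
  funext k
  induction k with
  | zero => exact e0
  | succ k ih =>
    by_cases hk : k + 1 < R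
    · have := congrFun e (k+1)
      simp only [U2, if_pos hk] at this
      rw [ih] at this
      exact O1_inj ha (hY.1 _ hk) (hY'.1 _ hk) this
    · rw [hY.2 _ (by omega), hY'.2 _ (by omega)]

theorem TT_card (n R : ℕ) (hR : 0 < R) : (TT (n : ℤ) R).Finite ∧
    (TT (n : ℤ) R).ncard < 4 ^ (7 * ((2 * n + 1) * R)) := by
  have inj : Set.InjOn (fun (Y : ℕ → ℤ → S) (k : Fin R) (i : Finset.Icc (-(n : ℤ)) n) => Y k i)
      (TT n R) := by
    intro Y hY Y' hY' e
    funext k i
    by_cases hk : k < R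
    · by_cases h : i ∈ Finset.Icc (-(n : ℤ)) n
      · exact congrFun (congrFun e ⟨k, hk⟩) ⟨i, h⟩
      · rw [← show Cut n (Y k) = Y k from hY.1 k hk, ← show Cut n (Y' k) = Y' k from hY'.1 k hk]
        rw [Finset.mem_Icc] at h
        simp only [Cut]
        split_ifs <;> first | omega | rfl
    · rw [hY.2 k (by omega), hY'.2 k (by omega)]
  refine ⟨Set.Finite.of_finite_image (Set.toFinite _) inj, ?_⟩
  refine (Set.ncard_le_ncard_of_injOn (t := Set.univ) _ (fun _ _ => trivial) inj).trans_lt ?_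
  rw [Set.ncard_univ, Nat.card_eq_fintype_card, Fintype.card_fun, Fintype.card_fun,
    Fintype.card_coe, Int.card_Icc, Fintype.card_fin,
    show ((n : ℤ) + 1 - -n).toNat = 2 * n + 1 by omega, ← pow_mul, pow_mul 4 7]
  exact Nat.pow_lt_pow_left (by simp) (by positivity)

/-! ### general facts -/

theorem Mv_lg (o : ℤ → S) (p : ℤ) (l : Fin 13) (b : Bool) :
    Mv (update o p (((o p).1.1, (o p).1.2.1, l), (o p).2.1, b)) =
      update (Mv o) (p-1) (((Mv o (p-1)).1.1, (Mv o (p-1)).1.2.1, l), (Mv o (p-1)).2.1, b) := by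
  funext i
  simp only [Mv, update_apply]
  split_ifs <;> first | omega | simp_all

theorem Mv_rh (o : ℤ → S) (p : ℤ) (r : Fin 13) (b : Bool) :
    Mv (update o p (((o p).1.1, r, (o p).1.2.2), b, (o p).2.2)) =
      update (Mv o) (p+1) (((Mv o (p+1)).1.1, r, (Mv o (p+1)).1.2.2), b, (Mv o (p+1)).2.2) := by
  funext i
  simp only [Mv, update_apply]
  split_ifs <;> first | omega | simp_all

theorem kap_congr {v w : S} (h : (P v).1 = (P w).1) : kap v = kap w := by
  unfold kap; rw [h]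

theorem updl_nrm {y : ℤ → S} (hy : y ∈ Nrm a) (l : Fin 13) (g : Bool) :
    update y (-a) ((0, 0, l), false, g) ∈ Nrm a := by
  funext i
  by_cases e : i = -a
  · subst e; simp [Cut]
  · have := congrFun (show Cut a y = y from hy) i
    simpa only [Cut, update_of_ne e] using this

theorem updr_nrm (ha : 0 < a) {y : ℤ → S} (hy : y ∈ Nrm a) (r : Fin 13) (h : Bool) :
    update y a ((0, r, 0), h, false) ∈ Nrm a := by
  funext i
  by_cases e : i = a
  · subst e; simp [Cut, show ¬ i = -i by omega]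
  · have := congrFun (show Cut a y = y from hy) i
    simpa only [Cut, update_of_ne e] using this

theorem nrm_l {y : ℤ → S} (hy : y ∈ Nrm a) : y (-a) = ((0, 0, (y (-a)).1.2.2), false, (y (-a)).2.2) := by
  have := congrFun (show Cut a y = y from hy) (-a)
  simp only [Cut, if_true] at this
  exact this.symm

theorem nrm_r (ha : 0 < a) {y : ℤ → S} (hy : y ∈ Nrm a) :
    y a = ((0, (y a).1.2.1, 0), (y a).2.1, false) := by
  have := congrFun (show Cut a y = y from hy) a
  simp only [Cut, if_true, if_neg (show ¬ a = -a by omega)] at this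
  exact this.symm

/-- connecting two rows by changes of single cells -/
theorem connect (ha : 0 < a) (Q : (ℤ → S) → (ℤ → S) → Prop) (rf : ∀ x, Q x x)
    (tr : ∀ x y w, y ∈ Nrm a → Q x y → Q y w → Q x w)
    (h1 : ∀ x ∈ Nrm a, ∀ p, -a < p → p < a → ∀ v, Q x (update x p v))
    (h2 : ∀ x ∈ Nrm a, ∀ l g, Q x (update x (-a) ((0, 0, l), false, g)))
    (h3 : ∀ x ∈ Nrm a, ∀ r h, Q x (update x a ((0, r, 0), h, false)))
    {x x' : ℤ → S} (hx : x ∈ Nrm a) (hx' : x' ∈ Nrm a) : Q x x' := by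
  have out : ∀ y ∈ Nrm a, ∀ i, i < -a ∨ a < i → y i = z := fun y hy i hi => by
    rw [← show Cut a y = y from hy]
    simp only [Cut]
    split_ifs <;> first | omega | rfl
  have key : ∀ n : ℕ, ∃ y ∈ Nrm a, Q x y ∧ ∀ i, i < -a + n → y i = x' i := by
    intro n
    induction n with
    | zero => exact ⟨x, hx, rf _, fun i hi => by rw [out _ hx _ (by omega), out _ hx' _ (by omega)]⟩
    | succ n ih =>
      obtain ⟨y, b1, b2, b3⟩ := ih
      have fin : ∀ w, w ∈ Nrm a → Q y w → (∀ i, i ≠ -a + n → w i = y i) → w (-a + n) = x' (-a + n) →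
          ∃ y ∈ Nrm a, Q x y ∧ ∀ i, i < -a + (n + 1 : ℕ) → y i = x' i := fun w c1 c2 c3 c4 =>
        ⟨w, c1, tr _ _ _ b1 b2 c2, fun i hi => by
          by_cases e : i = -a + n
          · rw [e, c4]
          · rw [c3 i e, b3 i (by omega)]⟩
      by_cases c1 : -a + (n : ℤ) = -a
      · refine fin _ (updl_nrm b1 (x' (-a)).1.2.2 (x' (-a)).2.2) (h2 _ b1 _ _) (fun i hi => ?_) ?_
        · rw [update_of_ne (by rwa [← c1])]
        · rw [c1, update_self]; exact (nrm_l hx').symm
      by_cases c2 : -a + (n : ℤ) = a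
      · refine fin _ (updr_nrm ha b1 (x' a).1.2.1 (x' a).2.1) (h3 _ b1 _ _) (fun i hi => ?_) ?_
        · rw [update_of_ne (by rwa [← c2])]
        · rw [c2, update_self]; exact (nrm_r ha hx').symm
      by_cases c3 : -a + (n : ℤ) < a
      · refine fin _ (upd_nrm b1 (by omega) c3 (x' (-a + n))) (h1 _ b1 _ (by omega) c3 _)
          (fun i hi => update_of_ne hi _ _) (update_self _ _ _)
      · exact fin y b1 (rf _) (fun _ _ => rfl) (by rw [out _ b1 _ (by omega), out _ hx' _ (by omega)])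
  obtain ⟨y, b1, b2, b3⟩ := key (2 * a + 1).toNat
  have : y = x' := by
    funext i
    by_cases e : i < a + 1
    · exact b3 i (by omega)
    · rw [out _ b1 _ (by omega), out _ hx' _ (by omega)]
  exact this ▸ b2

end
end Pool.Agent.Helper52.TD
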