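import Pool.Agent.Helper52.TD.D

set_option autoImplicit false
open Function Pool.Agent.H63.UP

namespace Pool.Agent.Helper52.TD
noncomputable section

variable {a : ℤ} {R : ℕ}

theorem one' {X I : Type} {δ : I → X → X} (i : I) {x y : X} (h : δ i x = y) : Rch δ x y :=
  h ▸ Rch.one i x

/-- replace the row `0` -/
def s0 (Y : ℕ → ℤ → S) (w : ℤ → S) : ℕ → ℤ → S := update Y 0 w

theorem s0_0 (Y : ℕ → ℤ → S) (w : ℤ → S) : s0 Y w 0 = w := update_self _ _ _
theorem s0_1 (Y : ℕ → ℤ → S) (w : ℤ → S) {k : ℕ} (h : k ≠ 0) : s0 Y w k = Y k :=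
  update_of_ne h _ _
theorem s0_s0 (Y : ℕ → ℤ → S) (w w' : ℤ → S) : s0 (s0 Y w) w' = s0 Y w' := update_idem _ _ _
theorem s0_self (Y : ℕ → ℤ → S) : s0 Y (Y 0) = Y := update_eq_self _ _

theorem s0_mem (hR : 0 < R) {Y : ℕ → ℤ → S} (hY : Y ∈ TT a R) {w : ℤ → S} (hw : w ∈ Nrm a) :
    s0 Y w ∈ TT a R := by
  refine ⟨fun k hk => ?_, fun k hk => ?_⟩
  · by_cases e : k = 0
    · subst e; rwa [s0_0]
    · rw [s0_1 _ _ e]; exact hY.1 k hk
  · rw [s0_1 _ _ (by omega)]; exact hY.2 k hk

theorem step0 {Y : ℕ → ℤ → S} {w : ℤ → S} (j j' : Bool × Bool)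
    (h : ∀ i, -a < i → i < a → kap (w i) = kap (Y 0 i)) :
    U2 a R j (s0 Y w) = s0 (U2 a R j' Y) (U a j w) := by
  funext k
  rcases k with _ | k
  · simp [U2, s0_0]
  · rw [s0_1 _ _ (by omega)]
    simp only [U2]
    rw [s0_1 _ _ (by omega : k + 1 ≠ 0)]
    congr 2
    rcases k with _ | k
    · rw [s0_0]
      funext i
      simp only [O1]
      split_ifs with h1 h2 h3
      · rfl
      · rfl
      · rw [h i h3.1 h3.2]
      · rfl
    · rw [s0_1 _ _ (by omega : k + 1 ≠ 0)]

def FrT (a : ℤ) (R : ℕ) (p : ℤ) : Prop :=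
  ∀ Y ∈ TT a R, ∀ v, Rch (U2 a R) Y (s0 Y (update (Y 0) p v))
def FHT (a : ℤ) (R : ℕ) (p : ℤ) : Prop :=
  ∀ Y ∈ TT a R, ∀ b, Rch (U2 a R) Y (s0 Y (update (Y 0) p ((Y 0 p).1, b, (Y 0 p).2.2)))
def FGT (a : ℤ) (R : ℕ) (p : ℤ) : Prop :=
  ∀ Y ∈ TT a R, ∀ b, Rch (U2 a R) Y (s0 Y (update (Y 0) p ((Y 0 p).1, (Y 0 p).2.1, b)))

theorem kap_zero {v : S} (h : (P v).1.1 = 0) : kap v = 0 := by
  unfold kap
  rw [if_neg (by rw [h]; decide), if_neg (by rw [h]; decide),
    if_neg (fun e => by rw [e] at h; exact absurd h (by decide))]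

section
variable (ha : 0 < a) (hR : 0 < R) (hf : (TT a R).Finite)
include ha hR hf

theorem symT {X Y : ℕ → ℤ → S} (hX : X ∈ TT a R) (h : Rch (U2 a R) X Y) : Rch (U2 a R) Y X :=
  (rch_symm hf (oo a) (U2_mem ha hR) (U2_inj ha hR) hX h).2

theorem preT {Y : ℕ → ℤ → S} (hY : Y ∈ TT a R) (o : Bool × Bool) :
    ∃ X ∈ TT a R, ∃ j, U2 a R j X = Y ∧ oo a X = o :=
  pre_closed hf le_rfl (oo a) (fun j X _ => U2_mem ha hR j X) (U2_inj ha hR) hY o

theorem fr_ofT {p : ℤ} (h1 : -a < p) (h2 : p < a) (hh : FHT a R p) (hg : FGT a R (p - 1)) :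
    FrT a R p := by
  intro Y hY
  let E : S → S → Prop := fun v w =>
    Rch (U2 a R) (s0 Y (update (Y 0) p v)) (s0 Y (update (Y 0) p w))
  have Ym : ∀ v, s0 Y (update (Y 0) p v) ∈ TT a R := fun v =>
    s0_mem hR hY (upd_nrm (hY.1 0 hR) h1 h2 v)
  have Es : ∀ v w, E v w → E w v := fun v w h => symT ha hR hf (Ym v) h
  have Eh : ∀ d h g b, E (d, h, g) (d, b, g) := fun d h g b => by
    simpa [s0_0, s0_s0] using hh _ (Ym (d, h, g)) b
  have Eg : ∀ v w, (P v).1 = (P w).1 → (P v).2.1 = (P w).2.1 → E v w := fun v w e1 e2 => by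
    refine (Rch.one (false, false) _).trans ((hg _ (U2_mem ha hR _ _) (P w).2.2).trans
      (symT ha hR hf (Ym w) ?_))
    convert Rch.one (δ := U2 a R) (false, false) _ using 1
    rw [← s0_s0 Y (update (Y 0) p v) (update (Y 0) p w),
      step0 (Y := s0 Y (update (Y 0) p v)) (w := update (Y 0) p w) _ (false, false)
        (fun i _ _ => by
        by_cases e : i = p
        · subst e; simp only [s0_0, update_self]; exact (kap_congr e1).symm
        · simp only [s0_0, update_of_ne e])]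
    congr 1
    simp only [U2, s0_0]
    unfold U
    rw [← Mv_g, Ot_upd _ _ h1 h2, update_idem, update_self, e1, e2, ← Ot_upd _ _ h1 h2]
  have E0 : ∀ d g, E (d, false, g) (d, false, false) := fun d g =>
    Eg _ _ (by simp [P, p1]) (by simp [P, p1])
  have E1 : ∀ d, E (d, false, false) (sg d, false, false) := fun d =>
    (Es _ _ (E0 d true)).trans ((Eh d false true true).trans
      ((Eg (d, true, true) (sg d, true, false) (by simp [P, p1]) (by simp [P, p1])).trans
        (Eh _ _ _ _)))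
  have E2 : ∀ n d, E (d, false, false) (sg^[n] d, false, false) := fun n d => by
    induction n with
    | zero => exact Rch.refl _
    | succ n ih => rw [iterate_succ_apply']; exact ih.trans (E1 _)
  have E3 : ∀ v : S, E v (v.1, false, false) := fun v => (Eh _ _ _ _).trans (E0 _ _)
  intro v
  obtain ⟨n, hn⟩ := ex_sg.choose_spec (Y 0 p).1 v.1
  have := (E3 (Y 0 p)).trans ((E2 n _).trans
    (Es _ _ (by rw [show sg^[n] (Y 0 p).1 = v.1 from hn]; exact E3 v)))
  simpa [E, s0_self] using this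

theorem fh_succT {p : ℤ} (h1 : -a < p) (h2 : p < a) (h : FrT a R p) : FHT a R (p + 1) := by
  intro Y hY b
  obtain ⟨X, hX, j, rfl, -⟩ := preT ha hR hf hY (false, false)
  obtain ⟨v, hv⟩ := Finite.surjective_of_injective P_inj
    ((Ot a j (X 0) p).1, b, (Ot a j (X 0) p).2.2)
  refine (symT ha hR hf hX (Rch.one j X)).trans ((h X hX v).trans ?_)
  convert Rch.one (δ := U2 a R) j _ using 1
  rw [step0 j j (fun i _ _ => ?_)]
  · congr 1
    simp only [U2]
    unfold U
    rw [← Mv_h, ← hv, ← Ot_upd _ _ h1 h2]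
  · by_cases e : i = p
    · subst e
      rw [update_self]
      refine kap_congr ?_
      rw [hv]
      simp [Ot, h1, h2, show ¬ i = -a by omega, show ¬ i = a by omega]
    · rw [update_of_ne e]

theorem fh_zeroT : FHT a R (-a + 1) := by
  intro Y hY b
  obtain ⟨X, hX, j, rfl, -⟩ := preT ha hR hf hY (false, false)
  refine (symT ha hR hf hX (Rch.one j X)).trans ?_
  convert Rch.one (δ := U2 a R) (b, j.2) X using 1
  conv_rhs => rw [← s0_self X]
  rw [step0 (b, j.2) j (fun i _ _ => rfl)]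
  congr 1
  simp only [U2]
  unfold U
  rw [← Mv_h]
  congr 1
  funext i
  by_cases e : i = -a
  · subst e; simp [Ot]
  · simp only [Ot, update_of_ne e, if_neg e]

theorem fg_zeroT : FGT a R (-a) := by
  intro Y hY b
  have m : update (Y 0) (-a) ((Y 0 (-a)).1, (Y 0 (-a)).2.1, b) ∈ Nrm a := by
    rw [nrm_l (hY.1 0 hR)]
    exact updl_nrm (hY.1 0 hR) _ _
  refine (Rch.one (false, false) Y).trans (symT ha hR hf (s0_mem hR hY m) ?_)
  convert Rch.one (δ := U2 a R) (false, false) _ using 1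
  rw [step0 (false, false) (false, false) (fun i h _ => by rw [update_of_ne (by omega)])]
  conv_lhs => rw [← s0_self (U2 a R (false, false) Y)]
  congr 1
  simp only [U2]
  unfold U
  congr 1
  funext i
  by_cases e : i = -a
  · subst e; simp [Ot]
  · simp only [Ot, update_of_ne e]

theorem fr_allT (n : ℕ) (h : -a + 1 + n < a) : FrT a R (-a + 1 + n) := by
  induction n with
  | zero =>
    refine fr_ofT ha hR hf (by omega) h (by simpa using fh_zeroT ha hR hf)
      (by simpa using fg_zeroT ha hR hf)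
  | succ n ih =>
    have ih := ih (by omega)
    refine fr_ofT ha hR hf (by omega) h ?_ ?_
    · convert fh_succT ha hR hf (by omega) (by omega) ih using 1; omega
    · rw [show -a + 1 + (n + 1 : ℕ) - 1 = -a + 1 + n by omega]
      exact fun Y hY b => ih Y hY _

theorem fr_int {p : ℤ} (h1 : -a < p) (h2 : p < a) : FrT a R p := by
  have := fr_allT ha hR hf (p + a - 1).toNat (by omega)
  rwa [show -a + 1 + ((p + a - 1).toNat : ℤ) = p by omega] at this

theorem fl_T (Y : ℕ → ℤ → S) (hY : Y ∈ TT a R) (l : Fin 13) (g : Bool) :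
    Rch (U2 a R) Y (s0 Y (update (Y 0) (-a) ((0, 0, l), false, g))) := by
  obtain ⟨p, hp⟩ : ∃ p, p = -a + 1 := ⟨_, rfl⟩
  have h1 : -a < p := by omega
  have h2 : p < a := by omega
  have m1 := upd_nrm (hY.1 0 hR) h1 h2 z
  obtain ⟨X, hX, j, e, -⟩ := preT ha hR hf (s0_mem hR hY m1) (false, false)
  have e0 : Mv (Ot a j (X 0)) = update (Y 0) p z := by
    have := congrFun e 0
    simpa only [U2, s0_0, U] using this
  have op : Ot a j (X 0) p = P (X 0 p) := by
    simp [Ot, h1, h2, show ¬ p = -a by omega, show ¬ p = a by omega]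
  have c0 : (P (X 0 p)).1.1 = 0 := by
    have := congrFun e0 p
    rw [update_self] at this
    rw [← op]
    exact congrArg (fun v : S => v.1.1) this
  obtain ⟨v, hv⟩ := Finite.surjective_of_injective P_inj
    (((Ot a j (X 0) p).1.1, (Ot a j (X 0) p).1.2.1, l), (Ot a j (X 0) p).2.1, g)
  have w1 := updl_nrm m1 l g
  have s1 : U2 a R j (s0 X (update (X 0) p v)) =
      s0 Y (update (update (Y 0) p z) (-a) ((0, 0, l), false, g)) := by
    rw [step0 j j (fun i _ _ => ?_)]
    · rw [e, s0_s0]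
      congr 1
      unfold U
      rw [Ot_upd _ _ h1 h2, hv, Mv_lg, e0, show p - 1 = -a by omega]
      congr 1
      rw [nrm_l m1]
    · by_cases e : i = p
      · subst e
        rw [update_self, kap_zero c0, kap_zero (by rw [hv, op]; exact c0)]
      · rw [update_of_ne e]
  refine (fr_int ha hR hf h1 h2 Y hY z).trans ((symT ha hR hf hX (one' j e)).trans
    ((fr_int ha hR hf h1 h2 X hX v).trans ((one' j s1).trans ?_)))
  have := fr_int ha hR hf h1 h2 _ (s0_mem hR hY w1) (Y 0 p)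
  rw [s0_0, s0_s0] at this
  convert this using 2
  funext i
  simp only [update_apply]
  split_ifs <;> first | omega | rfl | simp_all

theorem fr_T (Y : ℕ → ℤ → S) (hY : Y ∈ TT a R) (r : Fin 13) (b : Bool) :
    Rch (U2 a R) Y (s0 Y (update (Y 0) a ((0, r, 0), b, false))) := by
  obtain ⟨p, hp⟩ : ∃ p, p = a - 1 := ⟨_, rfl⟩
  have h1 : -a < p := by omega
  have h2 : p < a := by omega
  have m1 := upd_nrm (hY.1 0 hR) h1 h2 z
  obtain ⟨X, hX, j, e, -⟩ := preT ha hR hf (s0_mem hR hY m1) (false, false)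
  have e0 : Mv (Ot a j (X 0)) = update (Y 0) p z := by
    have := congrFun e 0
    simpa only [U2, s0_0, U] using this
  have op : Ot a j (X 0) p = P (X 0 p) := by
    simp [Ot, h1, h2, show ¬ p = -a by omega, show ¬ p = a by omega]
  have c0 : (P (X 0 p)).1.1 = 0 := by
    have := congrFun e0 p
    rw [update_self] at this
    rw [← op]
    exact congrArg (fun v : S => v.1.1) this
  obtain ⟨v, hv⟩ := Finite.surjective_of_injective P_inj
    (((Ot a j (X 0) p).1.1, r, (Ot a j (X 0) p).1.2.2), b, (Ot a j (X 0) p).2.2)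
  have w1 := updr_nrm ha m1 r b
  have s1 : U2 a R j (s0 X (update (X 0) p v)) =
      s0 Y (update (update (Y 0) p z) a ((0, r, 0), b, false)) := by
    rw [step0 j j (fun i _ _ => ?_)]
    · rw [e, s0_s0]
      congr 1
      unfold U
      rw [Ot_upd _ _ h1 h2, hv, Mv_rh, e0, show p + 1 = a by omega]
      congr 1
      rw [nrm_r ha m1]
    · by_cases e : i = p
      · subst e
        rw [update_self, kap_zero c0, kap_zero (by rw [hv, op]; exact c0)]
      · rw [update_of_ne e]
  refine (fr_int ha hR hf h1 h2 Y hY z).trans ((symT ha hR hf hX (one' j e)).trans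
    ((fr_int ha hR hf h1 h2 X hX v).trans ((one' j s1).trans ?_)))
  have := fr_int ha hR hf h1 h2 _ (s0_mem hR hY w1) (Y 0 p)
  rw [s0_0, s0_s0] at this
  convert this using 2
  funext i
  simp only [update_apply]
  split_ifs <;> first | omega | rfl | simp_all

/-- the rows below `k` are free -/
theorem free_one (Y Y' : ℕ → ℤ → S) (hY : Y ∈ TT a R) (hY' : Y' ∈ TT a R)
    (h : ∀ i, 1 ≤ i → Y i = Y' i) : Rch (U2 a R) Y Y' := by
  have e1 : s0 Y (Y' 0) = Y' := by
    funext k
    by_cases e : k = 0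
    · subst e; exact s0_0 _ _
    · rw [s0_1 _ _ e]; exact h k (by omega)
  have := connect ha (fun x w => Rch (U2 a R) (s0 Y x) (s0 Y w)) (fun x => Rch.refl _)
    (fun x y w _ h1 h2 => h1.trans h2) (fun x hx p h1 h2 v => by
      have := fr_int ha hR hf h1 h2 _ (s0_mem hR hY hx) v
      rwa [s0_0, s0_s0] at this)
    (fun x hx l g => by
      have := fl_T ha hR hf _ (s0_mem hR hY hx) l g
      rwa [s0_0, s0_s0] at this)
    (fun x hx r b => by
      have := fr_T ha hR hf _ (s0_mem hR hY hx) r b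
      rwa [s0_0, s0_s0] at this)
    (hY.1 0 hR) (hY'.1 0 hR)
  rwa [s0_self, e1] at this

end
end
end Pool.Agent.Helper52.TD
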