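import Pool.Agent.Helper52.TD.E

set_option autoImplicit false
open Function Pool.Agent.H63.UP

namespace Pool.Agent.Helper52.TD
noncomputable section

variable {a : ℤ} {R : ℕ}

theorem Ot_z : Ot a (false, false) zr = zr := by
  funext i
  simp only [Ot, zr]
  split_ifs
  · rfl
  · rfl
  · exact P_z
  · rfl

theorem O1_z : O1 a zr zr = zr := by
  funext i
  simp only [O1, zr]
  split_ifs
  · rfl
  · rfl
  · rw [kap_z, act_zero, P_z]
  · rfl

/-- a row above a blank row -/
def A0 (a : ℤ) (x : ℤ → S) : ℤ → S := Mv (O1 a zr x)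

theorem A0_z : A0 a zr = zr := by unfold A0; rw [O1_z]; rfl

theorem O1_upd (low x : ℤ → S) {p : ℤ} (h1 : -a < p) (h2 : p < a) (v : S) :
    O1 a low (update x p v) = update (O1 a low x) p (act (kap (low p)) v) := by
  funext i
  by_cases e : i = p
  · subst e; simp only [O1, update_self]; split_ifs <;> first | omega | rfl
  · simp only [O1, update_of_ne e]

/-- the rows below `k` can be changed freely -/
def Free (a : ℤ) (R k : ℕ) : Prop :=
  ∀ Y ∈ TT a R, ∀ Y' ∈ TT a R, (∀ i, k ≤ i → Y i = Y' i) → Rch (U2 a R) Y Y'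

theorem sk_mem {k : ℕ} (hk : k < R) {Y : ℕ → ℤ → S} (hY : Y ∈ TT a R) {w : ℤ → S}
    (hw : w ∈ Nrm a) : update Y k w ∈ TT a R := by
  refine ⟨fun i hi => ?_, fun i hi => ?_⟩
  · by_cases e : i = k
    · subst e; rwa [update_self]
    · rw [update_of_ne e]; exact hY.1 i hi
  · rw [update_of_ne (by omega)]; exact hY.2 i hi

/-- the rows of the next state depend on the rows of the present state in the same or lower
position -/
theorem U2_congr {Y Y' : ℕ → ℤ → S} {j j' : Bool × Bool} {k : ℕ} (h : ∀ i, k ≤ i → Y i = Y' i)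
    (i : ℕ) (hi : k < i) : U2 a R j Y i = U2 a R j' Y' i := by
  rcases i with _ | i
  · omega
  · simp only [U2]
    rw [h i (by omega), h (i+1) (by omega)]

section
variable (ha : 0 < a) (hR : 0 < R) (hf : (TT a R).Finite)
include ha hR hf

theorem pb {k : ℕ} (hk : k ≤ R) (h0 : 0 < k) {Y : ℕ → ℤ → S} (hY : Y ∈ TT a R)
    (hb : ∀ i, i < k → Y i = zr) :
    ∃ X ∈ TT a R, (∀ i, i < k → X i = zr) ∧ U2 a R (false, false) X = Y := by
  obtain ⟨X, hX, j, e, o⟩ := preT ha hR hf hY (false, false)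
  have e0 := congrFun e 0
  simp only [U2] at e0
  rw [hb 0 h0] at e0
  obtain ⟨x0, rfl⟩ := Ot_inj ha _ (hX.1 0 hR) _ zr_nrm j (false, false)
    (by rw [e0]; unfold U; rw [Ot_z]; rfl) (by
      have := o
      simp only [oo] at this
      rw [this]; rfl)
  refine ⟨X, hX, fun i => ?_, e⟩
  induction i with
  | zero => exact fun _ => x0
  | succ i ih =>
    intro hi
    have e1 := congrFun e (i+1)
    simp only [U2, if_pos (show i + 1 < R by omega)] at e1
    rw [hb _ hi, ih (by omega)] at e1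
    exact O1_inj ha (hX.1 _ (by omega)) zr_nrm (low := zr) (by rw [e1, O1_z]; rfl)

variable {k : ℕ} (h0 : 0 < k) (hk : k < R) (hF : Free a R k)
include h0 hk hF

theorem cell {Y : ℕ → ℤ → S} (hY : Y ∈ TT a R) (hb : ∀ i, i < k → Y i = zr) {x : ℤ → S}
    (hx : x ∈ Nrm a) {p : ℤ} (h1 : -a < p) (h2 : p < a) :
    Rch (U2 a R) (update Y k (A0 a x)) (update Y k (A0 a (update x p (rho (x p))))) := by
  have m1 := sk_mem hk hY (O1_nrm ha zr x)
  obtain ⟨X, hX, hXb, e⟩ := pb ha hR hf hk.le h0 m1 (fun i hi => by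
    rw [update_of_ne (by omega)]; exact hb i hi)
  obtain ⟨k', rfl⟩ : ∃ k', k = k' + 1 := ⟨k - 1, by omega⟩
  have ek := congrFun e (k' + 1)
  simp only [U2, if_pos hk, update_self] at ek
  rw [hXb k' (by omega)] at ek
  have xk : X (k' + 1) = x := O1_inj ha (hX.1 _ hk) hx ek
  obtain ⟨d0, hd⟩ := Finite.surjective_of_injective P_inj (((4, 12, 12), false, false) : S)
  have kd : kap d0 = 3 := by
    unfold kap; rw [hd]; simp
  have m3 : update X k' (update zr p d0) ∈ TT a R := sk_mem (by omega) hX (upd_nrm zr_nrm h1 h2 d0)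
  have m4 := sk_mem hk hY (O1_nrm ha zr (update x p (rho (x p))))
  refine (symT ha hR hf hX (one' _ e)).trans ((hF X hX _ m3 (fun i hi => by
    rw [update_of_ne (by omega)])).trans ((Rch.one (false, false) _).trans
      (hF _ (U2_mem ha hR _ _) _ m4 (fun i hi => ?_))))
  by_cases c : i = k' + 1
  · subst c
    rw [update_self]
    simp only [U2, if_pos hk, update_self]
    rw [update_of_ne (by omega : k' + 1 ≠ k'), xk]
    congr 1
    rw [O1_upd _ _ h1 h2]
    funext i
    by_cases c : i = p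
    · subst c
      simp only [O1, update_self]
      rw [if_neg (by omega), if_neg (by omega), if_pos ⟨h1, h2⟩, kd]
      simp [act, zr, kap_z]
    · rw [update_of_ne c]
      simp only [O1, update_of_ne c]
  · rw [update_of_ne c]
    have := congrFun e i
    rw [update_of_ne c] at this
    rw [← this]
    exact U2_congr (k := k' + 1) (fun i hi => by rw [update_of_ne (by omega)]) i (by omega)

theorem cell' {Y : ℕ → ℤ → S} (hY : Y ∈ TT a R) (hb : ∀ i, i < k → Y i = zr) {x : ℤ → S}
    (hx : x ∈ Nrm a) {p : ℤ} (h1 : -a < p) (h2 : p < a) (v : S) :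
    Rch (U2 a R) (update Y k (A0 a x)) (update Y k (A0 a (update x p v))) := by
  have it : ∀ n : ℕ, Rch (U2 a R) (update Y k (A0 a x))
      (update Y k (A0 a (update x p (rho^[n] (x p))))) := by
    intro n
    induction n with
    | zero => simpa using Rch.refl _
    | succ n ih =>
      have := cell ha hR hf h0 hk hF hY hb (upd_nrm hx h1 h2 (rho^[n] (x p))) h1 h2
      rw [update_self, update_idem, ← iterate_succ_apply' (f := rho)] at this
      exact ih.trans this
  obtain ⟨n, hn⟩ := ex_rho.choose_spec (x p) v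
  have := it n
  rwa [show rho^[n] (x p) = v from hn] at this

theorem A0_surj {x : ℤ → S} (hx : x ∈ Nrm a) : ∃ y ∈ Nrm a, A0 a y = x := by
  have m : update (fun _ => zr : ℕ → ℤ → S) k x ∈ TT a R :=
    sk_mem hk ⟨fun _ _ => zr_nrm, fun _ _ => rfl⟩ hx
  obtain ⟨X, hX, hXb, e⟩ := pb ha hR hf hk.le h0 m (fun i hi => by rw [update_of_ne (by omega)])
  obtain ⟨k', rfl⟩ : ∃ k', k = k' + 1 := ⟨k - 1, by omega⟩
  have ek := congrFun e (k' + 1)
  simp only [U2, if_pos hk, update_self] at ek
  rw [hXb k' (by omega)] at ek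
  exact ⟨_, hX.1 _ hk, ek⟩

/-- changing a half cell: `q` is the new state at `b`, produced by the neighbour `p` -/
theorem half {Y : ℕ → ℤ → S} (hY : Y ∈ TT a R) (hb : ∀ i, i < k → Y i = zr) {x : ℤ → S}
    (hx : x ∈ Nrm a) {b : ℤ} (hbb : b = -a ∨ b = a) {q : S} (hq : update x b q ∈ Nrm a)
    (hp : ∀ y, A0 a y = x → ∃ p v, -a < p ∧ p < a ∧ A0 a (update y p v) = update x b q) :
    Rch (U2 a R) (update Y k (A0 a x)) (update Y k (A0 a (update x b q))) := by
  have m1 := sk_mem hk hY (O1_nrm ha zr x)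
  obtain ⟨X, hX, hXb, e⟩ := pb ha hR hf hk.le h0 m1 (fun i hi => by
    rw [update_of_ne (by omega)]; exact hb i hi)
  have ek := congrFun e k
  have xk : X k = x := by
    obtain ⟨k', rfl⟩ : ∃ k', k = k' + 1 := ⟨k - 1, by omega⟩
    simp only [U2, if_pos hk, update_self] at ek
    rw [hXb k' (by omega)] at ek
    exact O1_inj ha (hX.1 _ hk) hx ek
  obtain ⟨y, hy, ey⟩ := A0_surj ha hR hf h0 hk hF hx
  obtain ⟨p, v, h1, h2, e2⟩ := hp y ey
  have c := cell' ha hR hf h0 hk hF hX hXb hy h1 h2 v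
  rw [ey, e2, ← xk, update_eq_self] at c
  refine (symT ha hR hf hX (one' _ e)).trans (c.trans (one' (false, false) ?_))
  funext i
  by_cases c1 : i < k
  · rw [update_of_ne (by omega), hb i c1]
    rcases i with _ | i
    · simp only [U2]
      rw [update_of_ne (by omega), hXb 0 c1]
      unfold U; rw [Ot_z]; rfl
    · simp only [U2, if_pos (show i + 1 < R by omega)]
      rw [update_of_ne (by omega), update_of_ne (by omega), hXb i (by omega), hXb (i+1) c1, O1_z]
      rfl
  · obtain ⟨k', rfl⟩ : ∃ k', k = k' + 1 := ⟨k - 1, by omega⟩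
    by_cases c2 : i = k' + 1
    · subst c2
      simp only [U2, if_pos hk, update_self]
      rw [update_of_ne (by omega), hXb k' (by omega), xk]
      rfl
    · have := congrFun e i
      rw [update_of_ne c2] at this
      rw [update_of_ne c2, ← this]
      obtain ⟨i, rfl⟩ : ∃ i', i = i' + 1 := ⟨i - 1, by omega⟩
      simp only [U2]
      rw [update_of_ne c2]
      congr 2
      by_cases c3 : i = k' + 1
      · subst c3
        rw [update_self]
        funext s
        simp only [O1]
        split_ifs with g1 g2 g3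
        · rfl
        · rfl
        · rw [update_of_ne (by rcases hbb with rfl | rfl <;> omega)]
        · rfl
      · rw [update_of_ne c3]

theorem half_l {Y : ℕ → ℤ → S} (hY : Y ∈ TT a R) (hb : ∀ i, i < k → Y i = zr) {x : ℤ → S}
    (hx : x ∈ Nrm a) (l : Fin 13) (g : Bool) : Rch (U2 a R) (update Y k (A0 a x))
      (update Y k (A0 a (update x (-a) ((0, 0, l), false, g)))) := by
  refine half ha hR hf h0 hk hF hY hb hx (Or.inl rfl) (updl_nrm hx l g) (fun y ey => ?_)
  obtain ⟨v, hv⟩ := Finite.surjective_of_injective P_inj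
    (((O1 a zr y (-a+1)).1.1, (O1 a zr y (-a+1)).1.2.1, l), (O1 a zr y (-a+1)).2.1, g)
  refine ⟨-a+1, v, by omega, by omega, ?_⟩
  unfold A0 at ey ⊢
  rw [O1_upd _ _ (by omega) (by omega)]
  simp only [zr, kap_z, act_zero]
  rw [hv, Mv_lg, ey, show -a + 1 - 1 = -a by ring]
  congr 1
  rw [nrm_l hx]

theorem half_r {Y : ℕ → ℤ → S} (hY : Y ∈ TT a R) (hb : ∀ i, i < k → Y i = zr) {x : ℤ → S}
    (hx : x ∈ Nrm a) (r : Fin 13) (h : Bool) : Rch (U2 a R) (update Y k (A0 a x))
      (update Y k (A0 a (update x a ((0, r, 0), h, false)))) := by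
  refine half ha hR hf h0 hk hF hY hb hx (Or.inr rfl) (updr_nrm ha hx r h) (fun y ey => ?_)
  obtain ⟨v, hv⟩ := Finite.surjective_of_injective P_inj
    (((O1 a zr y (a-1)).1.1, r, (O1 a zr y (a-1)).1.2.2), h, (O1 a zr y (a-1)).2.2)
  refine ⟨a-1, v, by omega, by omega, ?_⟩
  unfold A0 at ey ⊢
  rw [O1_upd _ _ (by omega) (by omega)]
  simp only [zr, kap_z, act_zero]
  rw [hv, Mv_rh, ey, show a - 1 + 1 = a by ring]
  congr 1
  rw [nrm_r ha hx]

theorem free_succ : Free a R (k+1) := by
  intro Y hY Y' hY' hh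
  have lm : ∀ Y ∈ TT a R, (fun i => if i < k then zr else Y i) ∈ TT a R := fun Y hY =>
    ⟨fun i hi => by dsimp only; split_ifs; exacts [zr_nrm, hY.1 i hi],
      fun i hi => by dsimp only; rw [if_neg (by omega)]; exact hY.2 i hi⟩
  have m := lm Y hY
  have m' := lm Y' hY'
  obtain ⟨B, hB⟩ : ∃ B : ℕ → ℤ → S, B = fun i => if i < k then zr else Y i := ⟨_, rfl⟩
  obtain ⟨B', hB'⟩ : ∃ B : ℕ → ℤ → S, B = fun i => if i < k then zr else Y' i := ⟨_, rfl⟩
  rw [← hB] at m
  rw [← hB'] at m'
  have bb : ∀ i, i < k → B i = zr := fun i hi => by rw [hB]; exact if_pos hi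
  have e1 : update B k (Y k) = B := by
    funext i
    by_cases c : i = k
    · subst c; rw [update_self, hB]; simp
    · rw [update_of_ne c]
  have e2 : update B k (Y' k) = B' := by
    funext i
    by_cases c : i = k
    · subst c; rw [update_self, hB']; simp
    · rw [update_of_ne c, hB, hB']
      dsimp only
      split_ifs
      · rfl
      · exact hh i (by omega)
  have key : ∀ x ∈ Nrm a, ∀ x' ∈ Nrm a,
      Rch (U2 a R) (update B k (A0 a x)) (update B k (A0 a x')) := fun x hx x' hx' =>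
    connect ha (fun x w => Rch (U2 a R) (update B k (A0 a x)) (update B k (A0 a w)))
      (fun x => Rch.refl _) (fun x y w _ h1 h2 => h1.trans h2)
      (fun x hx p h1 h2 v => cell' ha hR hf h0 hk hF m bb hx h1 h2 v)
      (fun x hx l g => half_l ha hR hf h0 hk hF m bb hx l g)
      (fun x hx r h => half_r ha hR hf h0 hk hF m bb hx r h) hx hx'
  obtain ⟨w, hw, ew⟩ := A0_surj ha hR hf h0 hk hF (hY.1 k hk)
  obtain ⟨w', hw', ew'⟩ := A0_surj ha hR hf h0 hk hF (hY'.1 k hk)
  have := key w hw w' hw'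
  rw [ew, ew', e1, e2] at this
  exact (hF Y hY B m (fun i hi => by rw [hB]; dsimp only; rw [if_neg (by omega)])).trans
    (this.trans (hF B' m' Y' hY' (fun i hi => by rw [hB']; dsimp only; rw [if_neg (by omega)])))

end

theorem free_all (ha : 0 < a) (hR : 0 < R) (hf : (TT a R).Finite) (k : ℕ) (h : k + 1 ≤ R) :
    Free a R (k+1) := by
  induction k with
  | zero => exact fun Y hY Y' hY' h => free_one ha hR hf Y Y' hY hY' h
  | succ k ih => exact free_succ ha hR hf (by omega) (by omega) (ih (by omega))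

/-- any two states are connected -/
theorem trans_all (ha : 0 < a) (hR : 0 < R) (hf : (TT a R).Finite) {Y Y' : ℕ → ℤ → S}
    (hY : Y ∈ TT a R) (hY' : Y' ∈ TT a R) : Rch (U2 a R) Y Y' := by
  obtain ⟨r, rfl⟩ : ∃ r, R = r + 1 := ⟨R - 1, by omega⟩
  exact free_all ha hR hf r le_rfl Y hY Y' hY' (fun i hi => by rw [hY.2 i hi, hY'.2 i hi])

end
end Pool.Agent.Helper52.TD
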