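import Pool.Agent.Helper52.TD.F

set_option autoImplicit false
open Function Pool.Agent.H63.UP

namespace Pool.Agent.Helper52.TD
noncomputable section

variable {a : ℤ} {R : ℕ}

/-- a walled row above another row -/
theorem cut_row (ha : 0 < a) (low cur : ℤ → S) (l1 : (cur (-a)).1.1.val = 1)
    (l2 : (cur (-a)).1.2.1.val = 0) (l3 : (cur (-a)).2.1 = false) (l4 : kap (low (-a)) = 1)
    (r1 : (cur a).1.1.val = 5) (r2 : (cur a).1.2.2.val = 0) (r3 : (cur a).2.2 = false)
    (r4 : kap (low a) = 2) :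
    Cut a (Mv fun i => act (kap (low i)) (cur i)) = Mv (O1 a (Cut a low) (Cut a cur)) := by
  have b1 : act 1 (cur (-a)) = ((1, (cur (-a)).1.2.2, 0), (cur (-a)).2.2, false) := by
    have e : cur (-a) = ((1, 0, (cur (-a)).1.2.2), false, (cur (-a)).2.2) := S_ext l1 l2 rfl l3 rfl
    conv_lhs => rw [e]
    simp only [act, if_true]
    exact ex_PL.choose_spec.2 _ _
  have c1 : act 2 (cur a) = ((5, 0, (cur a).1.2.1), false, (cur a).2.1) := by
    have e : cur a = ((5, (cur a).1.2.1, 0), (cur a).2.1, false) := S_ext r1 rfl r2 rfl r3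
    conv_lhs => rw [e]
    rw [act, if_neg (by decide), if_pos rfl]
    exact ex_PR.choose_spec.2 _ _
  funext i
  by_cases e1 : i - 1 = -a <;> by_cases e2 : i + 1 = a <;>
  simp only [Cut, Mv, O1] <;>
  split_ifs <;> first | omega | rfl | simp only [e1, e2, b1, c1, l4, r4]

/-- the part of a configuration between the walls -/
def CC (a : ℤ) (R : ℕ) (y : ℤ → ℤ → S) : ℕ → ℤ → S := fun k => if k < R then Cut a (y k) else zr

theorem CC_mem (y : ℤ → ℤ → S) : CC a R y ∈ TT a R := by
  refine ⟨fun k hk => ?_, fun k hk => ?_⟩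
  · unfold CC; rw [if_pos hk]; exact Cut_nrm _
  · unfold CC; rw [if_neg (by omega)]

theorem dense2 (w : ℤ → ℤ → S) (n : ℕ) : ∃ t, ∀ j i : ℤ, 0 ≤ j → j ≤ n → -(n + 1 : ℕ) < i →
    i < (n + 1 : ℕ) → G t j i = w j i := by
  obtain ⟨hf, hc⟩ := TT_card (n + 1) (n + 1) (by omega)
  have ha : (0 : ℤ) < (n + 1 : ℕ) := by omega
  obtain ⟨u, hu⟩ := universal (δ := U2 (n + 1 : ℕ) (n + 1)) hf (U2_mem ha (by omega))
    (Y := fun Y => ∀ j i : ℤ, 0 ≤ j → j ≤ n → -(n + 1 : ℕ) < i → i < (n + 1 : ℕ) →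
      Y j.toNat i = w j i) (fun Y hY =>
      ⟨_, trans_all ha (by omega) hf hY (CC_mem w), fun j i h1 h2 h3 h4 => by
        unfold CC
        rw [if_pos (by omega), show ((j.toNat : ℕ) : ℤ) = j by omega]
        simp only [Cut]
        split_ifs <;> first | omega | rfl⟩) hc
  obtain ⟨X, t, ht, ⟨i0, i1, i2⟩, x1, x2, x3, hM⟩ := machine' n (n + 2) (by
      have : E n < 4 ^ E n := Nat.lt_pow_self (by norm_num)
      have : n + 2 ≤ E n := by unfold E; nlinarith
      omega) (fun k => 2 * (u k).1.toNat + (u k).2.toNat) (fun k => by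
    rcases u k with ⟨_ | _, _ | _⟩ <;> simp)
  obtain ⟨m, hm, hy⟩ := hu _ (CC_mem (G t))
  rw [← pow_add] at hm
  have hm' : m ≤ 4 ^ E n := by
    refine hm.trans (Nat.pow_le_pow_right (by norm_num) ?_)
    unfold E; nlinarith
  have wl := walls (T := t + 4 ^ E n) (X := X) ⟨i1, i2⟩ x2 x3
    (fun H h => ⟨(hM H h).1, (hM H h).2.1⟩) (M := t + 4 ^ E n - 1) (by omega)
  have key : ∀ k, k ≤ m → CC (n + 1 : ℕ) (n + 1) (G (t + k)) =
      run (U2 (n + 1 : ℕ) (n + 1)) u (CC (n + 1 : ℕ) (n + 1) (G t)) k := by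
    intro k
    induction k with
    | zero => exact fun _ => rfl
    | succ k ih =>
      intro hk
      rw [run, ← ih (by omega)]
      funext j
      induction j with
      | zero =>
        obtain ⟨a1, a2, a3⟩ := (hM _ initL).2.2 k (by omega)
        obtain ⟨b1, b2, b3⟩ := (hM _ initR).2.2 k (by omega)
        simp only [vL, vR, neg_neg] at a1 a2 a3 b1 b2 b3
        simp only [CC, U2]
        rw [if_pos (by omega), if_pos (by omega)]
        simp only [Nat.cast_zero]
        rw [G_zero, G_zero, ← add_assoc, iterate_succ_apply', cut_step ha _ _ (by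
          rcases u k with ⟨_ | _, _ | _⟩ <;> simp) a1 a2 a3 b1 b2 b3]
        congr 1
        rcases u k with ⟨_ | _, _ | _⟩ <;> simp
      | succ j _ =>
        simp only [CC, U2]
        by_cases hj : j + 1 < n + 1
        swap
        · rw [if_neg hj, if_neg hj]
        have hj' : j < n + 1 := by omega
        simp only [hj, hj', if_true]
        rw [← add_assoc, G_succ]
        have hx : ∀ s, t - (n + 2) ≤ s → X s = -((n + 1 : ℕ) : ℤ) := x1
        have cj : ((j + 1 : ℕ) : ℤ) - 1 = j := by push_cast; ring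
        -- the walls of the row `j + 1`
        obtain ⟨wL, wR⟩ := wl j
        obtain ⟨wL, -⟩ := wL (t + k - (j + 1)) (by omega)
        obtain ⟨wR, -⟩ := wR (t + k - (j + 1)) (by omega)
        simp only [sideL, sideR] at wL wR
        rw [show j + 1 + (t + k - (j + 1)) = t + k by omega, hx _ (by omega)] at wL wR
        have kk : kap (G (t + k) j (-((n + 1 : ℕ) : ℤ))) = 1 ∧
            kap (G (t + k) j ((n + 1 : ℕ) : ℤ)) = 2 := by
          rcases j with _ | j
          · obtain ⟨a1, a2, a3⟩ := (hM _ initL).2.2 k (by omega)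
            obtain ⟨b1, b2, b3⟩ := (hM _ initR).2.2 k (by omega)
            simp only [vL, vR, neg_neg] at a1 a2 a3 b1 b2 b3
            simp only [Nat.cast_zero]
            rw [G_zero]
            have hb : (2 * (u k).1.toNat + (u k).2.toNat) < 4 := by
              rcases u k with ⟨_ | _, _ | _⟩ <;> simp
            obtain ⟨c1, -⟩ := P_left (a := 1)
              (b := (F^[t + k] (x0 (4 ^ 43 : ℕ)) (-((n + 1 : ℕ) : ℤ))).1.2.2)
              (d := 2 * (u k).1.toNat + (u k).2.toNat) a2 (R7 (by omega))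
            obtain ⟨d1, -⟩ := P_right (a := 1)
              (b := (F^[t + k] (x0 (4 ^ 43 : ℕ)) ((n + 1 : ℕ) : ℤ)).1.2.1)
              (d := 2 * (u k).1.toNat + (u k).2.toNat) b2 (R7 (by omega))
            have s1 := flN_spec (P (F^[t + k] (x0 (4 ^ 43 : ℕ)) ((n + 1 : ℕ) : ℤ))).1.1.val
            have c1 := Fin.ext (b := 1) c1
            have d1 : (P (F^[t + k] (x0 (4 ^ 43 : ℕ)) ((n + 1 : ℕ) : ℤ))).1.1 = 5 :=
              Fin.ext (show _ = 5 by omega)
            constructor
            · unfold kap; rw [if_pos c1]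
            · unfold kap; rw [if_neg (by rw [d1]; decide), if_pos d1]
          · obtain ⟨vL, vR⟩ := wl j
            obtain ⟨vL, -⟩ := vL (t + k - (j + 1)) (by omega)
            obtain ⟨vR, -⟩ := vR (t + k - (j + 1)) (by omega)
            simp only [sideL, sideR] at vL vR
            rw [show j + 1 + (t + k - (j + 1)) = t + k by omega, hx _ (by omega)] at vL vR
            rw [neg_neg] at vR
            obtain ⟨q1, q2, q3⟩ := vL
            obtain ⟨q4, q5, q6⟩ := vR
            push_cast at q1 q2 q3 q4 q5 q6 ⊢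
            exact ⟨kap_wall q1 q2 q3, kap_wall' q4 q5 q6⟩
        obtain ⟨w1, w2, w3⟩ := wL
        rw [neg_neg] at wR
        obtain ⟨w4, w5, w6⟩ := wR
        have s1 := flN_spec (G (t + k) ((j : ℤ) + 1) ((n + 1 : ℕ) : ℤ)).1.1.val
        rw [cj]
        rw [show ((j + 1 : ℕ) : ℤ) = (j : ℤ) + 1 by push_cast; ring]
        exact cut_row ha _ _ w1 w2 w3 kk.1 (by omega) w5 w6 kk.2
  refine ⟨t + m, fun j i b c d e => ?_⟩
  rw [← hy j i b c d e, ← key m le_rfl]
  unfold CC
  rw [if_pos (by omega), show ((j.toNat : ℕ) : ℤ) = j by omega]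
  simp only [Cut]
  split_ifs <;> first | omega | rfl

end
end Pool.Agent.Helper52.TD
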